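import Pool.Agent.H311Z.SF.Defs

/-! Localisations of `ℂ[x₀, …, x₄]` at monomials and explicit contracting homotopies. -/

namespace Pool.Agent.H311Z.SF

open MvPolynomial

noncomputable section

abbrev ι : S 4 →+* K 4 := algebraMap (S 4) (K 4)

lemma ι_inj : Function.Injective ι := IsFractionRing.injective (S 4) (K 4)

def xI (I : Finset (Fin 5)) : S 4 := ∏ j ∈ I, X j

lemma xI_ne (I : Finset (Fin 5)) : xI I ≠ 0 := Finset.prod_ne_zero_iff.2 fun j _ => X_ne_zero j

lemma ι_ne {f : S 4} (h : f ≠ 0) : ι f ≠ 0 := fun h' => h (ι_inj (by rw [h', map_zero]))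

lemma ιX_ne (i : Fin 5) : ι (X i) ≠ 0 := ι_ne (X_ne_zero i)

/-- the localisation of `S` at `x_I` -/
def SI (I : Finset (Fin 5)) : Subring (K 4) where
  carrier := {f | ∃ k : ℕ, ∃ p : S 4, ι p = ι (xI I ^ k) * f}
  zero_mem' := ⟨0, 0, by simp⟩
  one_mem' := ⟨0, 1, by simp⟩
  add_mem' := by
    rintro f g ⟨k, p, hp⟩ ⟨l, q, hq⟩
    refine ⟨k + l, p * xI I ^ l + q * xI I ^ k, ?_⟩
    simp only [map_add, map_mul, hp, hq, pow_add]; ring
  neg_mem' := by
    rintro f ⟨k, p, hp⟩
    exact ⟨k, -p, by simp only [map_neg, hp]; ring⟩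
  mul_mem' := by
    rintro f g ⟨k, p, hp⟩ ⟨l, q, hq⟩
    refine ⟨k + l, p * q, ?_⟩
    simp only [map_mul, hp, hq, pow_add]; ring

lemma mem_SI {I : Finset (Fin 5)} {f : K 4} :
    f ∈ SI I ↔ ∃ k : ℕ, ∃ p : S 4, ι p = ι (xI I ^ k) * f := Iff.rfl

lemma ι_mem (I : Finset (Fin 5)) (p : S 4) : ι p ∈ SI I := ⟨0, p, by simp⟩

lemma SI_mono {I J : Finset (Fin 5)} (h : I ⊆ J) {f : K 4} (hf : f ∈ SI I) : f ∈ SI J := by
  obtain ⟨k, p, hp⟩ := hf
  refine ⟨k, p * xI (J \ I) ^ k, ?_⟩
  have : xI J = xI (J \ I) * xI I := (Finset.prod_sdiff h).symm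
  rw [this, map_mul, hp, mul_pow, map_mul]; ring

lemma inv_mem {I : Finset (Fin 5)} {i : Fin 5} (h : i ∈ I) : (ι (X i))⁻¹ ∈ SI I := by
  refine ⟨1, xI (I.erase i), ?_⟩
  have : xI I = X i * xI (I.erase i) := (Finset.mul_prod_erase I _ h).symm
  rw [this, pow_one, map_mul]
  have := ιX_ne i
  field_simp

lemma div_xI_mem (I : Finset (Fin 5)) (p : S 4) (k : ℕ) : ι p / ι (xI I ^ k) ∈ SI I :=
  ⟨k, p, by have := ι_ne (pow_ne_zero k (xI_ne I)); field_simp⟩

/-- common denominators -/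
lemma common {T : Type} [Finite T] (I : T → Finset (Fin 5)) (c : T → K 4)
    (h : ∀ t, c t ∈ SI (I t)) : ∃ k : ℕ, 1 ≤ k ∧ ∃ m : T → S 4, ∀ t, ι (m t) = ι (xI (I t) ^ k) * c t := by
  choose k p hp using h
  obtain ⟨N, hN⟩ := (Set.finite_range k).bddAbove
  refine ⟨N + 1, by omega, fun t => p t * xI (I t) ^ (N + 1 - k t), fun t => ?_⟩
  have : k t ≤ N := hN ⟨t, rfl⟩
  rw [map_mul, hp, mul_right_comm, ← map_mul, ← pow_add]
  congr 3
  omega

def Sup (k : ℕ) (I : Finset (Fin 5)) (f : S 4) : Prop := ∀ a ∈ f.support, ∀ j ∉ I, k ≤ a j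

lemma xI_pow_eq (I : Finset (Fin 5)) (k : ℕ) :
    xI I ^ k = monomial (∑ j ∈ I, Finsupp.single j k) (1 : ℂ) := by
  rw [xI, ← Finset.prod_pow, monomial_sum_one]
  exact Finset.prod_congr rfl fun j _ => X_pow_eq_monomial

lemma sum_single_apply (I : Finset (Fin 5)) (k : ℕ) (j : Fin 5) :
    (∑ i ∈ I, Finsupp.single i k) j = if j ∈ I then k else 0 := by
  simp [Finsupp.finsetSum_apply, Finsupp.single_apply]

lemma sup_mul (k : ℕ) (I : Finset (Fin 5)) (p : S 4) : Sup k I (xI Iᶜ ^ k * p) := by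
  intro a ha j hj
  rw [xI_pow_eq, mem_support_iff, coeff_monomial_mul'] at ha
  split_ifs at ha with h
  · have := h j
    rwa [sum_single_apply, if_pos (Finset.mem_compl.2 hj)] at this
  · exact absurd rfl ha

lemma dvd_of_sup {k : ℕ} {I : Finset (Fin 5)} {f : S 4} (h : Sup k I f) : xI Iᶜ ^ k ∣ f := by
  rw [xI_pow_eq, f.as_sum]
  refine Finset.dvd_sum fun a ha => ?_
  rw [monomial_dvd_monomial]
  refine ⟨Or.inr fun j => ?_, one_dvd _⟩
  rw [sum_single_apply]
  split_ifs with hj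
  · exact h a ha j (Finset.mem_compl.1 hj)
  · exact Nat.zero_le _

lemma xI_univ (I : Finset (Fin 5)) : xI Finset.univ = xI Iᶜ * xI I :=
  (Finset.prod_compl_mul_prod I _).symm

lemma level {T : Type} [Finite T] (I : T → Finset (Fin 5)) (c : T → K 4)
    (h : ∀ t, c t ∈ SI (I t)) : ∃ k : ℕ, ∃ m : T → S 4,
      (∀ t, ι (m t) = ι (xI Finset.univ ^ k) * c t) ∧ ∀ t, Sup k (I t) (m t) := by
  obtain ⟨k, -, m, hm⟩ := common I c h
  refine ⟨k, fun t => xI (I t)ᶜ ^ k * m t, fun t => ?_, fun t => sup_mul _ _ _⟩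
  rw [map_mul, hm, xI_univ (I t), mul_pow, map_mul]; ring

lemma unlevel {k : ℕ} {I : Finset (Fin 5)} {f : S 4} (h : Sup k I f) :
    ι f / ι (xI Finset.univ ^ k) ∈ SI I := by
  obtain ⟨p, rfl⟩ := dvd_of_sup h
  refine ⟨k, p, ?_⟩
  have h1 := ι_ne (pow_ne_zero k (xI_ne I))
  have h2 := ι_ne (pow_ne_zero k (xI_ne Iᶜ))
  rw [xI_univ I, mul_pow, map_mul, map_mul]
  field_simp

/-- monomialwise choice among five polynomials -/
def Hm (ch : (Fin 5 →₀ ℕ) → Fin 5) (f : Fin 5 → S 4) : S 4 :=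
  ∑ a ∈ Finset.univ.biUnion (fun i => (f i).support), monomial a (coeff a (f (ch a)))

lemma coeff_Hm (ch : (Fin 5 →₀ ℕ) → Fin 5) (f : Fin 5 → S 4) (a : Fin 5 →₀ ℕ) :
    coeff a (Hm ch f) = coeff a (f (ch a)) := by
  rw [Hm, coeff_sum]
  simp only [coeff_monomial]
  rw [Finset.sum_ite_eq']
  split_ifs with h
  · rfl
  · by_contra hne
    exact h (Finset.mem_biUnion.2 ⟨ch a, Finset.mem_univ _, mem_support_iff.2 (Ne.symm hne)⟩)

open Classical in
/-- choice of an index with large exponent -/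
def chS (k : ℕ) (a : Fin 5 →₀ ℕ) : Fin 5 := if h : ∃ j, k ≤ a j then h.choose else 0

lemma sup_chS {k : ℕ} {I : Finset (Fin 5)} (hI : I.card ≤ 3) {f : Fin 5 → S 4}
    (h : ∀ i, Sup k (insert i I) (f i)) : Sup k I (Hm (chS k) f) := by
  intro a ha j hj
  rw [mem_support_iff, coeff_Hm, ← mem_support_iff] at ha
  have h1 := h _ a ha
  have hex : ∃ j, k ≤ a j := by
    have : (insert (chS k a) I).card < (Finset.univ : Finset (Fin 5)).card := by
      have := Finset.card_insert_le (chS k a) I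
      simp only [Finset.card_univ, Fintype.card_fin]; omega
    obtain ⟨l, -, hl⟩ := Finset.exists_mem_notMem_of_card_lt_card this
    exact ⟨l, h1 l hl⟩
  by_cases hc : j = chS k a
  · rw [hc, chS, dif_pos hex]; exact hex.choose_spec
  · exact h1 j (by simp [hc, hj])

lemma card2 (i j : Fin 5) : ({i, j} : Finset (Fin 5)).card ≤ 3 :=
  (Finset.card_le_two).trans (by norm_num)

theorem H1S (c : Fin 5 → Fin 5 → K 4) (hc : ∀ i j, c i j ∈ SI {i, j})
    (hd : ∀ i j l, c j l - c i l + c i j = 0) :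
    ∃ b : Fin 5 → K 4, (∀ i, b i ∈ SI {i}) ∧ ∀ i j, b j - b i = c i j := by
  obtain ⟨k, m, hm, hs⟩ := level (fun t : Fin 5 × Fin 5 => {t.1, t.2}) (fun t => c t.1 t.2)
    fun t => hc _ _
  have h0 := ι_ne (pow_ne_zero k (xI_ne Finset.univ))
  refine ⟨fun j => ι (Hm (chS k) fun i => m (i, j)) / ι (xI Finset.univ ^ k),
    fun j => unlevel (sup_chS (by simp) fun i => hs (i, j)), fun i j => ?_⟩
  have : Hm (chS k) (fun l => m (l, j)) - Hm (chS k) (fun l => m (l, i)) = m (i, j) := by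
    ext a
    have : m (chS k a, j) - m (chS k a, i) = m (i, j) := by
      apply ι_inj
      simp only [map_sub, hm]
      linear_combination (-ι (xI Finset.univ ^ k)) * hd (chS k a) i j
    rw [coeff_sub, coeff_Hm, coeff_Hm, ← coeff_sub, this]
  rw [← sub_div, ← map_sub, this, hm]
  field_simp

theorem H2S (c : Fin 5 → Fin 5 → Fin 5 → K 4) (hc : ∀ i j l, c i j l ∈ SI {i, j, l})
    (hd : ∀ i j l r, c j l r - c i l r + c i j r - c i j l = 0) :
    ∃ b : Fin 5 → Fin 5 → K 4, (∀ i j, b i j ∈ SI {i, j}) ∧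
      ∀ i j l, b j l - b i l + b i j = c i j l := by
  obtain ⟨k, m, hm, hs⟩ := level (fun t : Fin 5 × Fin 5 × Fin 5 => {t.1, t.2.1, t.2.2})
    (fun t => c t.1 t.2.1 t.2.2) fun t => hc _ _ _
  have h0 := ι_ne (pow_ne_zero k (xI_ne Finset.univ))
  refine ⟨fun j l => ι (Hm (chS k) fun i => m (i, j, l)) / ι (xI Finset.univ ^ k),
    fun j l => unlevel (sup_chS (card2 _ _) fun i => hs (i, j, l)), fun i j l => ?_⟩
  have : Hm (chS k) (fun r => m (r, j, l)) - Hm (chS k) (fun r => m (r, i, l)) +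
      Hm (chS k) (fun r => m (r, i, j)) = m (i, j, l) := by
    ext a
    have : m (chS k a, j, l) - m (chS k a, i, l) + m (chS k a, i, j) = m (i, j, l) := by
      apply ι_inj
      simp only [map_sub, map_add, hm]
      linear_combination (-ι (xI Finset.univ ^ k)) * hd (chS k a) i j l
    rw [coeff_add, coeff_sub, coeff_Hm, coeff_Hm, coeff_Hm, ← coeff_sub, ← coeff_add, this]
  rw [← sub_div, ← add_div, ← map_sub, ← map_add, this, hm]
  field_simp

theorem H3S (c : Fin 5 → Fin 5 → Fin 5 → Fin 5 → K 4) (hc : ∀ i j l r, c i j l r ∈ SI {i, j, l, r})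
    (hd : ∀ i j l r s, c j l r s - c i l r s + c i j r s - c i j l s + c i j l r = 0) :
    ∃ b : Fin 5 → Fin 5 → Fin 5 → K 4, (∀ i j l, b i j l ∈ SI {i, j, l}) ∧
      ∀ i j l r, b j l r - b i l r + b i j r - b i j l = c i j l r := by
  obtain ⟨k, m, hm, hs⟩ := level
    (fun t : Fin 5 × Fin 5 × Fin 5 × Fin 5 => {t.1, t.2.1, t.2.2.1, t.2.2.2})
    (fun t => c t.1 t.2.1 t.2.2.1 t.2.2.2) fun t => hc _ _ _ _
  have h0 := ι_ne (pow_ne_zero k (xI_ne Finset.univ))
  refine ⟨fun j l r => ι (Hm (chS k) fun i => m (i, j, l, r)) / ι (xI Finset.univ ^ k),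
    fun j l r => unlevel (sup_chS Finset.card_le_three fun i => hs (i, j, l, r)),
    fun i j l r => ?_⟩
  have : Hm (chS k) (fun s => m (s, j, l, r)) - Hm (chS k) (fun s => m (s, i, l, r)) +
      Hm (chS k) (fun s => m (s, i, j, r)) - Hm (chS k) (fun s => m (s, i, j, l)) =
      m (i, j, l, r) := by
    ext a
    have : m (chS k a, j, l, r) - m (chS k a, i, l, r) + m (chS k a, i, j, r) -
        m (chS k a, i, j, l) = m (i, j, l, r) := by
      apply ι_inj
      simp only [map_sub, map_add, hm]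
      linear_combination (-ι (xI Finset.univ ^ k)) * hd (chS k a) i j l r
    rw [coeff_sub, coeff_add, coeff_sub, coeff_Hm, coeff_Hm, coeff_Hm, coeff_Hm, ← coeff_sub,
      ← coeff_add, ← coeff_sub, this]
  rw [← sub_div, ← add_div, ← sub_div, ← map_sub, ← map_add, ← map_sub, this, hm]
  field_simp

/-- choice depending only on the exponents of the last two variables -/
def chD (k : ℕ) (a : Fin 5 →₀ ℕ) : Fin 5 := if k ≤ a 3 then 3 else if k ≤ a 4 then 4 else 0

lemma Hm_X_mul (k : ℕ) (i : Fin 5) (h3 : i ≠ 3) (h4 : i ≠ 4) (f : Fin 5 → S 4) :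
    Hm (chD k) (fun l => X i * f l) = X i * Hm (chD k) f := by
  ext a
  rw [coeff_Hm, coeff_X_mul', coeff_X_mul']
  split_ifs with h
  · rw [coeff_Hm]
    have : chD k (a - Finsupp.single i 1) = chD k a := by
      simp [chD, h3, h4]
    rw [this]
  · rfl

lemma Hm_C_mul (ch : (Fin 5 →₀ ℕ) → Fin 5) (c : ℂ) (f : Fin 5 → S 4) :
    Hm ch (fun l => C c * f l) = C c * Hm ch f := by
  ext a
  rw [coeff_Hm, coeff_C_mul, coeff_C_mul, coeff_Hm]

lemma Hm_add (ch : (Fin 5 →₀ ℕ) → Fin 5) (f g : Fin 5 → S 4) :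
    Hm ch (fun l => f l + g l) = Hm ch f + Hm ch g := by
  ext a
  rw [coeff_Hm, coeff_add, coeff_add, coeff_Hm, coeff_Hm]

/-- the linear form in the first three variables -/
def al (a : Fin 3 → ℂ) : S 4 := C (a 0) * X 0 + C (a 1) * X 1 + C (a 2) * X 2

lemma Hm_rel (k : ℕ) (a : Fin 3 → ℂ) (f0 f1 f2 h : Fin 5 → S 4)
    (e : ∀ l, C (a 0) * f0 l + C (a 1) * f1 l + C (a 2) * f2 l = al a * h l) :
    C (a 0) * Hm (chD k) f0 + C (a 1) * Hm (chD k) f1 + C (a 2) * Hm (chD k) f2 =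
      al a * Hm (chD k) h := by
  rw [← Hm_C_mul, ← Hm_C_mul, ← Hm_C_mul, ← Hm_add, ← Hm_add]
  have : (fun l => C (a 0) * f0 l + C (a 1) * f1 l + C (a 2) * f2 l) =
      fun l => C (a 0) * (X 0 * h l) + C (a 1) * (X 1 * h l) + C (a 2) * (X 2 * h l) := by
    funext l; rw [e, al]; ring
  rw [this, Hm_add, Hm_add, Hm_C_mul, Hm_C_mul, Hm_C_mul, Hm_X_mul k 0 (by decide) (by decide),
    Hm_X_mul k 1 (by decide) (by decide), Hm_X_mul k 2 (by decide) (by decide), al]
  ring

lemma sup_chD1 {k : ℕ} {j : Fin 5} {f : Fin 5 → S 4}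
    (h : ∀ i, Sup k {i, j} (f i)) : Sup k {j} (Hm (chD k) f) := by
  intro a ha l hl
  rw [mem_support_iff, coeff_Hm, ← mem_support_iff] at ha
  have h1 := h _ a ha
  by_cases hc : l = chD k a
  · unfold chD at hc h1
    split_ifs at hc h1 with h3 h4
    · rw [hc]; exact h3
    · rw [hc]; exact h4
    · by_cases hj : j = 3
      · exact absurd (h1 4 (by rw [hj]; decide)) h4
      · exact absurd (h1 3 (by simp [Ne.symm hj])) h3
  · exact h1 l (by simpa [hc] using hl)

lemma sup_chD2 {k : ℕ} {m : Fin 5 → Fin 5 → Fin 5 → S 4} (h : ∀ i j l, Sup k {i, j, l} (m i j l))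
    (hd : ∀ i j l r, m j l r - m i l r + m i j r - m i j l = 0) (j l : Fin 5) :
    Sup k {j, l} (Hm (chD k) fun i => m i j l) := by
  intro a ha s hs
  rw [mem_support_iff, coeff_Hm, ← mem_support_iff] at ha
  have h1 := h _ _ _ a ha
  by_cases hc : s = chD k a
  · unfold chD at hc h1 ha
    split_ifs at hc h1 ha with h3 h4
    · rw [hc]; exact h3
    · rw [hc]; exact h4
    · have z1 : ∀ r, coeff a (m 1 0 r) = 0 := by
        intro r
        by_contra hne
        have h5 := h 1 0 r a (mem_support_iff.2 hne)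
        by_cases hr : r = 3
        · exact h4 (h5 4 (by rw [hr]; decide))
        · exact h3 (h5 3 (by simp [Ne.symm hr]))
      have e := congrArg (coeff a) (hd 1 0 j l)
      rw [coeff_sub, coeff_add, coeff_sub, z1, z1, coeff_zero] at e
      have h6 : coeff a (m 1 j l) ≠ 0 := by
        have := mem_support_iff.1 ha
        intro h7
        apply this
        rw [h7] at e
        simpa using e
      refine h 1 j l a (mem_support_iff.2 h6) s ?_
      rw [hc] at hs ⊢
      simpa using hs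
  · exact h1 s (by simpa [hc] using hs)

variable {q : ℕ}

/-- logarithmic fields of a family of forms in the first three variables, localised -/
def DI (a : Fin q → Fin 3 → ℂ) (I : Finset (Fin 5)) (v : Fin 3 → K 4) : Prop :=
  (∀ i, v i ∈ SI I) ∧ ∀ j, ∃ h ∈ SI I,
    ι (C (a j 0)) * v 0 + ι (C (a j 1)) * v 1 + ι (C (a j 2)) * v 2 = ι (al (a j)) * h

theorem H1D (a : Fin q → Fin 3 → ℂ) (c : Fin 5 → Fin 5 → Fin 3 → K 4)
    (hc : ∀ i j, DI a {i, j} (c i j)) (hd : ∀ i j l, c j l - c i l + c i j = 0) :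
    ∃ b : Fin 5 → Fin 3 → K 4, (∀ i, DI a {i} (b i)) ∧ ∀ i j, b j - b i = c i j := by
  choose h hh e using fun i j => (hc i j).2
  obtain ⟨k, m, hm, hs⟩ := level (fun t : (Fin 5 × Fin 5) × (Fin 3 ⊕ Fin q) => {t.1.1, t.1.2})
    (fun t => Sum.elim (c t.1.1 t.1.2) (h t.1.1 t.1.2) t.2) (by
      rintro ⟨⟨i, j⟩, s | s⟩
      · exact (hc i j).1 s
      · exact hh i j s)
  have h0 := ι_ne (pow_ne_zero k (xI_ne Finset.univ))
  refine ⟨fun j s => ι (Hm (chD k) fun i => m ((i, j), .inl s)) / ι (xI Finset.univ ^ k),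
    fun j => ⟨fun s => unlevel (sup_chD1 fun i => hs ((i, j), .inl s)), fun s =>
      ⟨ι (Hm (chD k) fun i => m ((i, j), .inr s)) / ι (xI Finset.univ ^ k),
        unlevel (sup_chD1 fun i => hs ((i, j), .inr s)), ?_⟩⟩, fun i j => ?_⟩
  · have := Hm_rel k (a s) (fun i => m ((i, j), .inl 0)) (fun i => m ((i, j), .inl 1))
      (fun i => m ((i, j), .inl 2)) (fun i => m ((i, j), .inr s)) (fun l => by
        apply ι_inj
        simp only [map_add, map_mul, hm, Sum.elim_inl, Sum.elim_inr]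
        linear_combination (ι (xI Finset.univ ^ k)) * e l j s)
    have := congrArg ι this
    simp only [map_add, map_mul] at this
    field_simp
    linear_combination this
  · funext s
    have : Hm (chD k) (fun l => m ((l, j), .inl s)) - Hm (chD k) (fun l => m ((l, i), .inl s)) =
        m ((i, j), .inl s) := by
      ext a
      have : m ((chD k a, j), .inl s) - m ((chD k a, i), .inl s) = m ((i, j), .inl s) := by
        apply ι_inj
        simp only [map_sub, hm, Sum.elim_inl]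
        have := congrFun (hd (chD k a) i j) s
        simp only [Pi.add_apply, Pi.sub_apply, Pi.zero_apply] at this
        linear_combination (-ι (xI Finset.univ ^ k)) * this
      rw [coeff_sub, coeff_Hm, coeff_Hm, ← coeff_sub, this]
    rw [Pi.sub_apply, ← sub_div, ← map_sub, this, hm, Sum.elim_inl]
    field_simp

theorem H2D (a : Fin q → Fin 3 → ℂ) (ha : ∀ j, al (a j) ≠ 0)
    (c : Fin 5 → Fin 5 → Fin 5 → Fin 3 → K 4)
    (hc : ∀ i j l, DI a {i, j, l} (c i j l))
    (hd : ∀ i j l r, c j l r - c i l r + c i j r - c i j l = 0) :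
    ∃ b : Fin 5 → Fin 5 → Fin 3 → K 4, (∀ i j, DI a {i, j} (b i j)) ∧
      ∀ i j l, b j l - b i l + b i j = c i j l := by
  choose h hh e using fun i j l => (hc i j l).2
  obtain ⟨k, m, hm, hs⟩ := level
    (fun t : (Fin 5 × Fin 5 × Fin 5) × (Fin 3 ⊕ Fin q) => {t.1.1, t.1.2.1, t.1.2.2})
    (fun t => Sum.elim (c t.1.1 t.1.2.1 t.1.2.2) (h t.1.1 t.1.2.1 t.1.2.2) t.2) (by
      rintro ⟨⟨i, j, l⟩, s | s⟩
      · exact (hc i j l).1 s
      · exact hh i j l s)
  have h0 := ι_ne (pow_ne_zero k (xI_ne Finset.univ))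
  have hd' : ∀ i j l r s, c j l r s - c i l r s + c i j r s - c i j l s = 0 :=
    fun i j l r s => congrFun (hd i j l r) s
  have hmd : ∀ t i j l r, m ((j, l, r), t) - m ((i, l, r), t) + m ((i, j, r), t) -
      m ((i, j, l), t) = 0 := by
    rintro (s | s) i j l r
    · apply ι_inj
      simp only [map_sub, map_add, hm, Sum.elim_inl, map_zero]
      linear_combination (ι (xI Finset.univ ^ k)) * hd' i j l r s
    · apply ι_inj
      simp only [map_sub, map_add, hm, Sum.elim_inr, map_zero]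
      have : h j l r s - h i l r s + h i j r s - h i j l s = 0 := by
        apply mul_left_cancel₀ (ι_ne (ha s))
        linear_combination -e j l r s + e i l r s - e i j r s + e i j l s +
          ι (C (a s 0)) * hd' i j l r 0 + ι (C (a s 1)) * hd' i j l r 1 +
          ι (C (a s 2)) * hd' i j l r 2
      linear_combination (ι (xI Finset.univ ^ k)) * this
  refine ⟨fun j l s => ι (Hm (chD k) fun i => m ((i, j, l), .inl s)) / ι (xI Finset.univ ^ k),
    fun j l => ⟨fun s => unlevel (sup_chD2 (m := fun i j l => m ((i, j, l), .inl s))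
      (fun i j l => hs ((i, j, l), .inl s)) (hmd _) j l), fun s =>
      ⟨ι (Hm (chD k) fun i => m ((i, j, l), .inr s)) / ι (xI Finset.univ ^ k),
        unlevel (sup_chD2 (m := fun i j l => m ((i, j, l), .inr s))
          (fun i j l => hs ((i, j, l), .inr s)) (hmd _) j l), ?_⟩⟩, fun i j l => ?_⟩
  · have := Hm_rel k (a s) (fun i => m ((i, j, l), .inl 0)) (fun i => m ((i, j, l), .inl 1))
      (fun i => m ((i, j, l), .inl 2)) (fun i => m ((i, j, l), .inr s)) (fun r => by
        apply ι_inj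
        simp only [map_add, map_mul, hm, Sum.elim_inl, Sum.elim_inr]
        linear_combination (ι (xI Finset.univ ^ k)) * e r j l s)
    have := congrArg ι this
    simp only [map_add, map_mul] at this
    field_simp
    linear_combination this
  · funext s
    have : Hm (chD k) (fun r => m ((r, j, l), .inl s)) - Hm (chD k) (fun r => m ((r, i, l), .inl s)) +
        Hm (chD k) (fun r => m ((r, i, j), .inl s)) = m ((i, j, l), .inl s) := by
      ext a
      have : m ((chD k a, j, l), .inl s) - m ((chD k a, i, l), .inl s) +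
          m ((chD k a, i, j), .inl s) = m ((i, j, l), .inl s) := by
        linear_combination -hmd (.inl s) (chD k a) i j l
      rw [coeff_add, coeff_sub, coeff_Hm, coeff_Hm, coeff_Hm, ← coeff_sub, ← coeff_add, this]
    rw [Pi.add_apply, Pi.sub_apply, ← sub_div, ← add_div, ← map_sub, ← map_add, this, hm,
      Sum.elim_inl]
    field_simp

end

end Pool.Agent.H311Z.SF
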