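import Mathlib

/-! A logarithmic vector field of degree five on the special arrangement. -/

namespace Pool.Agent.H311Z.SF

variable {R : Type} [CommRing R]

def th0 (r x y z : R) : R :=
    (32)*r*x^5 + (-16)*r*x^4*y + (-96)*r*x^4*z + (8)*r*x^3*y^2 + (72)*r*x^3*y*z
     + (16)*r*x^3*z^2 + (-36)*r*x^2*y^2*z + (-44)*r*x^2*y*z^2 + (72)*r*x^2*z^3 + (6)*r*x*y^3*z
     + (28)*r*x*y^2*z^2 + (-18)*r*x*y*z^3 + (-24)*r*x*z^4 + (-6)*r*y^3*z^2 + (6)*r*y*z^4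
     + (-96)*x^5 + (48)*x^4*y + (144)*x^3*z^2 + (6)*x^2*y^3 + (-6)*x^2*y^2*z + (-90)*x^2*y*z^2
     + (-30)*x^2*z^3 + (-3)*x*y^4 + (-6)*x*y^3*z + (18)*x*y^2*z^2 + (42)*x*y*z^3 + (-27)*x*z^4
     + (3)*y^4*z + (-12)*y^2*z^3 + (9)*z^5

def th1 (r x y z : R) : R :=
    (24)*r*x^3*y^2 + (-24)*r*x^3*z^2 + (-16)*r*x^2*y^3 + (-72)*r*x^2*y^2*z + (16)*r*x^2*y*z^2
     + (72)*r*x^2*z^3 + (8)*r*x*y^4 + (18)*r*x*y^3*z + (34)*r*x*y^2*z^2 + (-18)*r*x*y*z^3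
     + (-42)*r*x*z^4 + (-1)*r*y^5 + (-14)*r*y^3*z^2 + (15)*r*y*z^4 + (-72)*x^3*y^2
     + (72)*x^3*z^2 + (72)*x^2*y^3 + (-72)*x^2*y*z^2 + (-18)*x*y^4 + (-18)*x*y^3*z
     + (18)*x*y^2*z^2 + (18)*x*y*z^3 + (9)*y^4*z + (-18)*y^2*z^3 + (9)*z^5

def hh0 (r x y z : R) : R :=
    (32)*r*x^4 + (-32)*r*x^3*y + (-48)*r*x^3*z + (12)*r*x^2*y^2 + (24)*r*x^2*y*z
     + (-20)*r*x^2*z^2 + (4)*r*x*y^3 + (-18)*r*x*y^2*z + (-8)*r*x*y*z^2 + (30)*r*x*z^3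
     + (-1)*r*y^4 + (3)*r*y^3*z + (1)*r*y^2*z^2 + (-3)*r*y*z^3 + (-96)*x^4 + (-48)*x^3*z
     + (60)*x^2*y^2 + (36)*x^2*z^2 + (-18)*x*y^3 + (-24)*x*y^2*z + (-18)*x*y*z^2 + (36)*x*z^3
     + (9)*y^3*z + (9)*y^2*z^2 + (-9)*y*z^3 + (-9)*z^4

def hh1 (r x y z : R) : R :=
    (32)*r*x^4 + (16)*r*x^3*y + (-96)*r*x^3*z + (-24)*r*x^2*y^2 + (88)*r*x^2*z^2 + (10)*r*x*y^3
     + (12)*r*x*y^2*z + (-26)*r*x*y*z^2 + (-12)*r*x*z^3 + (-1)*r*y^4 + (-3)*r*y^3*z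
     + (1)*r*y^2*z^2 + (3)*r*y*z^3 + (-96)*x^4 + (48)*x^3*y + (96)*x^3*z + (24)*x^2*y^2
     + (-72)*x^2*y*z + (-12)*x*y^3 + (-6)*x*y^2*z + (36)*x*y*z^2 + (-18)*x*z^3 + (9)*y^3*z
     + (-9)*y^2*z^2 + (-9)*y*z^3 + (9)*z^4

def hh2 (r x y z : R) : R :=
    (32)*r*x^4 + (-8)*r*x^3*y + (-72)*r*x^3*z + (48)*r*x^2*y*z + (16)*r*x^2*z^2 + (4)*r*x*y^3
     + (-12)*r*x*y^2*z + (-44)*r*x*y*z^2 + (36)*r*x*z^3 + (-1)*r*y^4 + (10)*r*y^2*z^2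
     + (-9)*r*z^4 + (-96)*x^4 + (24)*x^3*y + (24)*x^3*z + (24)*x^2*y^2 + (72)*x^2*z^2
     + (-6)*x*y^3 + (-6)*x*y^2*z + (-18)*x*y*z^2 + (-18)*x*z^3

def hh3 (r x y z : R) : R :=
    0

def hh4 (r x y z : R) : R :=
    (24)*r*x^3*y + (24)*r*x^3*z + (-16)*r*x^2*y^2 + (-88)*r*x^2*y*z + (-72)*r*x^2*z^2
     + (8)*r*x*y^3 + (26)*r*x*y^2*z + (60)*r*x*y*z^2 + (42)*r*x*z^3 + (-1)*r*y^4 + (-1)*r*y^3*z
     + (-15)*r*y^2*z^2 + (-15)*r*y*z^3 + (-72)*x^3*y + (-72)*x^3*z + (72)*x^2*y^2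
     + (72)*x^2*y*z + (-18)*x*y^3 + (-36)*x*y^2*z + (-18)*x*y*z^2 + (9)*y^3*z + (9)*y^2*z^2
     + (-9)*y*z^3 + (-9)*z^4

def hh5 (r x y z : R) : R :=
    (24)*r*x^3*y + (-24)*r*x^3*z + (-16)*r*x^2*y^2 + (-56)*r*x^2*y*z + (72)*r*x^2*z^2
     + (8)*r*x*y^3 + (10)*r*x*y^2*z + (24)*r*x*y*z^2 + (-42)*r*x*z^3 + (-1)*r*y^4 + (1)*r*y^3*z
     + (-15)*r*y^2*z^2 + (15)*r*y*z^3 + (-72)*x^3*y + (72)*x^3*z + (72)*x^2*y^2 + (-72)*x^2*y*z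
     + (-18)*x*y^3 + (18)*x*y*z^2 + (9)*y^3*z + (-9)*y^2*z^2 + (-9)*y*z^3 + (9)*z^4

def hh6 (r x y z : R) : R :=
    (32)*r*x^4 + (-16)*r*x^3*y + (-64)*r*x^3*z + (8)*r*x^2*y^2 + (56)*r*x^2*y*z
     + (-48)*r*x^2*z^2 + (-28)*r*x*y^2*z + (12)*r*x*y*z^2 + (24)*r*x*z^3 + (6)*r*y^3*z
     + (-6)*r*y*z^3 + (-96)*x^4 + (48)*x^3*y + (-96)*x^3*z + (48)*x^2*y*z + (48)*x^2*z^2
     + (6)*x*y^3 + (-6)*x*y^2*z + (-42)*x*y*z^2 + (18)*x*z^3 + (-3)*y^4 + (12)*y^2*z^2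
     + (-9)*z^4

def hh7 (r x y z : R) : R :=
    (32)*r*x^4 + (-112)*r*x^3*z + (-4)*r*x^2*y^2 + (16)*r*x^2*y*z + (84)*r*x^2*z^2
     + (6)*r*x*y^3 + (10)*r*x*y^2*z + (-18)*r*x*y*z^2 + (-6)*r*x*z^3 + (-1)*r*y^4
     + (-1)*r*y^3*z + (-3)*r*y^2*z^2 + (-3)*r*y*z^3 + (-96)*x^4 + (48)*x^3*z + (36)*x^2*y^2
     + (24)*x^2*y*z + (84)*x^2*z^2 + (-12)*x*y^3 + (-12)*x*y^2*z + (-24)*x*y*z^2 + (-72)*x*z^3
     + (3)*y^3*z + (3)*y^2*z^2 + (9)*y*z^3 + (9)*z^4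

def hh8 (r x y z : R) : R :=
    (32)*r*x^4 + (-8)*r*x^3*y + (-88)*r*x^3*z + (48)*r*x^2*y*z + (4)*r*x*y^3 + (-6)*r*x*y^2*z
     + (-36)*r*x*y*z^2 + (54)*r*x*z^3 + (-1)*r*y^4 + (1)*r*y^3*z + (9)*r*y^2*z^2 + (-9)*r*y*z^3
     + (-96)*x^4 + (24)*x^3*y + (-24)*x^3*z + (24)*x^2*y^2 + (120)*x^2*z^2 + (-6)*x*y^3
     + (-42)*x*y*z^2 + (-3)*y^3*z + (3)*y^2*z^2 + (27)*y*z^3 + (-27)*z^4

lemma rel0 (r x y z : R) (hr : r ^ 2 + 3 = 0) : (r - 1) * th0 r x y z + (1) * th1 r x y z + (-r) * 0 =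
    ((r - 1) * x + (1) * y + (-r) * z) * hh0 r x y z := by
  unfold th0 th1 hh0
  linear_combination ((16)*x^4*y + (-16)*x^4*z + (-4)*x^3*y^2 + (16)*x^3*y*z + (-12)*x^3*z^2 + (-4)*x^2*y^3
     + (-6)*x^2*y^2*z + (-12)*x^2*y*z^2 + (22)*x^2*z^3 + (1)*x*y^4 + (7)*x*y^3*z
     + (9)*x*y^2*z^2 + (-23)*x*y*z^3 + (6)*x*z^4 + (-1)*y^4*z + (-3)*y^3*z^2 + (1)*y^2*z^3
     + (3)*y*z^4) * hr

lemma rel1 (r x y z : R) (hr : r ^ 2 + 3 = 0) : (-1 - r) * th0 r x y z + (1) * th1 r x y z + (-r) * 0 =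
    ((-1 - r) * x + (1) * y + (-r) * z) * hh1 r x y z := by
  unfold th0 th1 hh1
  linear_combination ((32)*x^4*y + (32)*x^4*z + (-32)*x^3*y^2 + (-56)*x^3*y*z + (-24)*x^3*z^2 + (10)*x^2*y^3
     + (24)*x^2*y^2*z + (18)*x^2*y*z^2 + (4)*x^2*z^3 + (-1)*x*y^4 + (1)*x*y^3*z
     + (-15)*x*y^2*z^2 + (-5)*x*y*z^3 + (12)*x*z^4 + (-1)*y^4*z + (3)*y^3*z^2 + (1)*y^2*z^3
     + (-3)*y*z^4) * hr

lemma rel2 (r x y z : R) (hr : r ^ 2 + 3 = 0) : (-4) * th0 r x y z + (1) * th1 r x y z + (-r) * 0 =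
    ((-4) * x + (1) * y + (-r) * z) * hh2 r x y z := by
  unfold th0 th1 hh2
  linear_combination ((32)*x^4*z + (-8)*x^3*y*z + (-72)*x^3*z^2 + (48)*x^2*y*z^2 + (16)*x^2*z^3 + (4)*x*y^3*z
     + (-12)*x*y^2*z^2 + (-44)*x*y*z^3 + (36)*x*z^4 + (-1)*y^4*z + (10)*y^2*z^3 + (-9)*z^5) * hr

lemma rel3 (r x y z : R) (hr : r ^ 2 + 3 = 0) : (0) * th0 r x y z + (0) * th1 r x y z + (1) * 0 =
    ((0) * x + (0) * y + (1) * z) * hh3 r x y z := by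
  unfold th0 th1 hh3
  linear_combination (0) * hr

lemma rel4 (r x y z : R) (hr : r ^ 2 + 3 = 0) : (0) * th0 r x y z + (1) * th1 r x y z + (-1) * 0 =
    ((0) * x + (1) * y + (-1) * z) * hh4 r x y z := by
  unfold th0 th1 hh4
  linear_combination (0) * hr

lemma rel5 (r x y z : R) (hr : r ^ 2 + 3 = 0) : (0) * th0 r x y z + (1) * th1 r x y z + (1) * 0 =
    ((0) * x + (1) * y + (1) * z) * hh5 r x y z := by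
  unfold th0 th1 hh5
  linear_combination (0) * hr

lemma rel6 (r x y z : R) (hr : r ^ 2 + 3 = 0) : (-1) * th0 r x y z + (0) * th1 r x y z + (1) * 0 =
    ((-1) * x + (0) * y + (1) * z) * hh6 r x y z := by
  unfold th0 th1 hh6
  linear_combination (0) * hr

lemma rel7 (r x y z : R) (hr : r ^ 2 + 3 = 0) : (-2) * th0 r x y z + (1) * th1 r x y z + (-1) * 0 =
    ((-2) * x + (1) * y + (-1) * z) * hh7 r x y z := by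
  unfold th0 th1 hh7
  linear_combination (0) * hr

lemma rel8 (r x y z : R) (hr : r ^ 2 + 3 = 0) : (-4) * th0 r x y z + (1) * th1 r x y z + (1) * 0 =
    ((-4) * x + (1) * y + (1) * z) * hh8 r x y z := by
  unfold th0 th1 hh8
  linear_combination (0) * hr

lemma th0_zero (r y z : R) (hr : r ^ 2 + 3 = 0) :
    th0 r 0 y z = 3 * ((y - r * z) ^ 2 * z * (y - z) * (y + z)) := by
  unfold th0
  linear_combination ((-3)*y^2*z^3 + (3)*z^5) * hr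

/-- dual certificate: coefficient, line, point on the line -/
def cert : List (ℤ × Fin 9 × ℤ × ℤ × ℤ) :=
  [(-49455,7,1,3,1),
   (53760,3,1,1,0),
   (-930,5,1,-1,1),
   (-10448,2,1,-2,-3),
   (126576,2,1,2,-1),
   (-1295,8,1,4,0),
   (1197,4,2,-1,-1),
   (9720,6,1,-1,1),
   (-210,5,2,1,-1),
   (-3150,8,1,1,3),
   (756,0,3,-1,1),
   (88452,6,1,1,1),
   (-151200,6,1,2,1),
   (60480,7,1,2,0),
   (-17124,2,1,4,0),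
   (16128,4,1,1,1),
   (423360,6,0,1,0),
   (-438480,7,0,1,1),
   (9702,8,1,2,2),
   (109080,2,1,0,-2),
   (-54180,7,1,1,-1),
   (315,4,2,1,1),
   (36120,1,1,3,0),
   (-35910,4,1,0,0),
   (-245490,1,1,1,-1),
   (-42336,0,1,-1,0),
   (210,5,2,-1,1),
   (-6300,4,1,-1,-1),
   (-5040,0,2,0,1),
   (525,8,1,0,4),
   (-11970,5,1,0,0),
   (-4725,7,1,-1,-3),
   (-209160,1,1,-1,-2),
   (25200,7,1,0,-2),
   (24360,8,1,3,1),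
   (-35910,4,0,1,1),
   (-50400,6,1,0,1),
   (181980,0,0,2,1),
   (12600,1,2,0,-3),
   (-1680,3,1,-2,0),
   (-126,0,1,-3,-1),
   (287100,1,0,2,1),
   (39060,8,0,1,-1),
   (-6544,2,2,2,-3),
   (-2520,5,0,1,-1),
   (19824,1,1,-3,-3)]

end Pool.Agent.H311Z.SF
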