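import Mathlib

/-!
Hyperplane arrangements in `ℙⁿ` over `ℂ`, the intersection lattice, the module `D₀(𝒜)`, the total
cohomology `H^i_*` of the associated sheaf (computed by the Čech complex of the standard affine
cover) and stable freeness.
-/

namespace Pool.Agent.H311Z.SF

open MvPolynomial

/-- the coordinate ring `S = ℂ[x₀, …, xₙ]` -/
abbrev S (n : ℕ) : Type := MvPolynomial (Fin (n + 1)) ℂ

/-- its field of fractions -/
abbrev K (n : ℕ) : Type := FractionRing (S n)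

variable {n d : ℕ}

/-- the linear form `∑ i, a i * x i` -/
noncomputable def form (a : Fin (n + 1) → ℂ) : S n := ∑ i, C (a i) * X i

/-- the coefficient vectors `A j` define `d` distinct hyperplanes -/
def IsArrangement (A : Fin d → Fin (n + 1) → ℂ) : Prop :=
  (∀ j, A j ≠ 0) ∧ ∀ j l, j ≠ l → ∀ c : ℂ, A j ≠ c • A l

/-- the linear hyperplane `ker α` of `ℂ^(n+1)` -/
def hyperplane (a : Fin (n + 1) → ℂ) : Set (Fin (n + 1) → ℂ) := {p | ∑ i, a i * p i = 0}

/-- the intersection lattice: all intersections of subfamilies of the hyperplanes, the empty one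
being `ℂ^(n+1)` -/
def lattice (A : Fin d → Fin (n + 1) → ℂ) : Set (Set (Fin (n + 1) → ℂ)) :=
  Set.range fun T : Finset (Fin d) => ⋂ j ∈ T, hyperplane (A j)

/-- `θ(f)` for the derivation `θ = ∑ i, θ i ∂ / ∂ x i` -/
noncomputable def app (θ : Fin (n + 1) → S n) (f : S n) : S n := ∑ i, θ i * pderiv i f

/-- `D₀(𝒜)`: the derivations `θ` with `θ(α) ∈ α S` for all defining forms `α` and `θ(Q) = 0`,
where `Q` is the product of the forms -/
def D0 (A : Fin d → Fin (n + 1) → ℂ) : Set (Fin (n + 1) → S n) :=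
  {θ | (∀ j, form (A j) ∣ app θ (form (A j))) ∧ app θ (∏ j, form (A j)) = 0}

/-- the localisation `M_f`, `f = ∏ i ∈ I, x i`, of a submodule `M` of `S^(n+1)`, as a subset of
`K^(n+1)`; for graded `M` it is `⨁ₜ Γ(D₊(f), M~(t))` -/
def Loc (M : Set (Fin (n + 1) → S n)) (I : Finset (Fin (n + 1))) : Set (Fin (n + 1) → K n) :=
  {v | ∃ k : ℕ, ∃ m ∈ M, ∀ i, algebraMap (S n) (K n) (m i) =
    algebraMap (S n) (K n) ((∏ j ∈ I, X j) ^ k) * v i}

/-- the Čech differential on cochains indexed by tuples of indices of the cover -/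
def cech {G : Type} [AddCommGroup G] {p : ℕ} (c : (Fin (p + 1) → Fin (n + 1)) → G)
    (σ : Fin (p + 2) → Fin (n + 1)) : G :=
  ∑ j : Fin (p + 2), (-1 : ℤ) ^ (j : ℕ) • c (fun l => σ (j.succAbove l))

/-- `H^(p+1)_*(M~) = ⨁ₜ H^(p+1)(ℙⁿ, M~(t))` vanishes: in the Čech complex of the standard affine
cover `D₊(x₀), …, D₊(xₙ)` every `(p+1)`-cocycle is a coboundary -/
def CohVanishes (M : Set (Fin (n + 1) → S n)) (p : ℕ) : Prop :=
  ∀ c : (Fin (p + 2) → Fin (n + 1)) → Fin (n + 1) → K n,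
    (∀ σ, c σ ∈ Loc M (Finset.univ.image σ)) → (∀ σ, cech c σ = 0) →
    ∃ b : (Fin (p + 1) → Fin (n + 1)) → Fin (n + 1) → K n,
      (∀ τ, b τ ∈ Loc M (Finset.univ.image τ)) ∧ ∀ σ, cech b σ = c σ

/-- stably free: `H^i_*(𝒯_𝒜) = 0` for `2 ≤ i ≤ n - 2` (here `i = p + 1`) -/
def StablyFree (A : Fin d → Fin (n + 1) → ℂ) : Prop :=
  ∀ p : ℕ, 2 ≤ p + 1 → p + 1 + 2 ≤ n → CohVanishes (D0 A) p

end Pool.Agent.H311Z.SF
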