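import Pool.Agent.H311Z.SF.Van
import Pool.Agent.H311Z.SF.Data

/-! The special member of the family has vanishing `H²_*`. -/

namespace Pool.Agent.H311Z.SF

open MvPolynomial

noncomputable section

/-- the family of nine lines -/
def lines {R : Type} [CommRing R] (t : R) : Fin 9 → Fin 3 → R :=
  ![![t - 1, 1, -t], ![-1 - t, 1, -t], ![-4, 1, -t], ![0, 0, 1], ![0, 1, -1], ![0, 1, 1],
    ![-1, 0, 1], ![-2, 1, -1], ![-4, 1, 1]]

def gp (t : ℂ) : S 4 := (X 1 - C t * X 2) ^ 2 * X 2 * (X 1 - X 2) * (X 1 + X 2)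

lemma lin_prime {f : S 4} (hf : f.IsHomogeneous 1) (h0 : f ≠ 0) : Prime f := by
  apply Irreducible.prime
  apply irreducible_of_totalDegree_eq_one (hf.totalDegree h0)
  intro x hx
  rw [isUnit_iff_ne_zero]
  rintro rfl
  apply h0
  ext i
  simpa using hx i

lemma ne_of_eval {f : S 4} (pt : Fin 5 → ℂ) (h : eval pt f ≠ 0) : f ≠ 0 := by
  rintro rfl; exact h (map_zero _)

lemma dvd_cancel {p f F : S 4} (hp : Prime p) (pt : Fin 5 → ℂ) (h1 : eval pt p = 0)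
    (h2 : eval pt f ≠ 0) (h : p ∣ f * F) : p ∣ F := by
  rcases hp.dvd_or_dvd h with ⟨e, rfl⟩ | h
  · exact absurd (by rw [map_mul, h1, zero_mul]) h2
  · exact h

lemma φC (c : ℂ) : φ (C c) = C c := by simp [φ]
lemma φ1 : φ (X 1) = X 1 := φX (by decide) (by decide)
lemma φ2 : φ (X 2) = X 2 := φX (by decide) (by decide)
lemma φ4 : φ (X 4) = X 4 := φX (by decide) (by decide)

lemma φ_gp (t : ℂ) : φ (gp t) = gp t := by
  simp only [gp, map_mul, map_pow, map_sub, map_add, φC, φ1, φ2]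

variable {r : ℂ}

lemma rel_expand {θ : Fin 3 → S 4} {h : Fin 9 → S 4}
    (e : ∀ j, C (lines r j 0) * θ 0 + C (lines r j 1) * θ 1 + C (lines r j 2) * θ 2 =
      al (lines r j) * h j) :
    ((C r - 1) * θ 0 + θ 1 - C r * θ 2 = ((C r - 1) * X 0 + X 1 - C r * X 2) * h 0) ∧
    ((-1 - C r) * θ 0 + θ 1 - C r * θ 2 = ((-1 - C r) * X 0 + X 1 - C r * X 2) * h 1) ∧
    (-4 * θ 0 + θ 1 - C r * θ 2 = (-4 * X 0 + X 1 - C r * X 2) * h 2) ∧
    (θ 2 = X 2 * h 3) ∧ (θ 1 - θ 2 = (X 1 - X 2) * h 4) ∧ (θ 1 + θ 2 = (X 1 + X 2) * h 5) ∧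
    (-θ 0 + θ 2 = (-X 0 + X 2) * h 6) ∧
    (-2 * θ 0 + θ 1 - θ 2 = (-2 * X 0 + X 1 - X 2) * h 7) ∧
    (-4 * θ 0 + θ 1 + θ 2 = (-4 * X 0 + X 1 + X 2) * h 8) := by
  have e0 := e 0
  have e1 := e 1
  have e2 := e 2
  have e3 := e 3
  have e4 := e 4
  have e5 := e 5
  have e6 := e 6
  have e7 := e 7
  have e8 := e 8
  simp only [al, lines, Matrix.cons_val, map_sub, map_neg, map_one, map_zero, map_ofNat]
    at e0 e1 e2 e3 e4 e5 e6 e7 e8
  exact ⟨by linear_combination e0, by linear_combination e1, by linear_combination e2,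
    by linear_combination e3, by linear_combination e4, by linear_combination e5,
    by linear_combination e6, by linear_combination e7, by linear_combination e8⟩

lemma g_dvd (hr : r ^ 2 + 3 = 0) {θ : Fin 3 → S 4} {h : Fin 9 → S 4}
    (e : ∀ j, C (lines r j 0) * θ 0 + C (lines r j 1) * θ 1 + C (lines r j 2) * θ 2 =
      al (lines r j) * h j) : gp r ∣ φ (θ 0) := by
  obtain ⟨e0, e1, e2, e3, e4, e5, e6, e7, e8⟩ := rel_expand e
  have r0 : r ≠ 0 := by rintro rfl; norm_num at hr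
  have r1 : r - 1 ≠ 0 := fun h => by
    rw [sub_eq_zero] at h; rw [h] at hr; norm_num at hr
  have r2 : r + 1 ≠ 0 := fun h => by
    rw [add_eq_zero_iff_eq_neg] at h; rw [h] at hr; norm_num at hr
  have hT : (C r : S 4) ^ 2 + 3 = 0 := by
    have := congrArg (C : ℂ → S 4) hr
    simpa [map_ofNat] using this
  have pL : Prime (X 1 - C r * X 2 : S 4) :=
    lin_prime ((isHomogeneous_X _ _).sub (isHomogeneous_C_mul_X _ _))
      (ne_of_eval ![0, 1, 0, 0, 0] (by simp))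
  have pz : Prime (X 2 : S 4) := X_prime
  have pm : Prime (X 1 - X 2 : S 4) :=
    lin_prime ((isHomogeneous_X _ _).sub (isHomogeneous_X _ _))
      (ne_of_eval ![0, 1, 0, 0, 0] (by simp))
  have pp : Prime (X 1 + X 2 : S 4) :=
    lin_prime ((isHomogeneous_X _ _).add (isHomogeneous_X _ _))
      (ne_of_eval ![0, 1, 0, 0, 0] (by simp))
  have hM : (X 1 - C r * X 2 : S 4) ∣ X 0 * ((3 - C r) * (C r - 1) * h 0 +
      (-3 - C r) * (-1 - C r) * h 1 + 2 * C r * (-4) * h 2) :=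
    ⟨-((3 - C r) * h 0 + (-3 - C r) * h 1 + 2 * C r * h 2), by
      linear_combination (-(3 - C r)) * e0 - (-3 - C r) * e1 - 2 * C r * e2⟩
  obtain ⟨M, hM⟩ := dvd_cancel pL ![1, 0, 0, 0, 0] (by simp) (by simp) hM
  have f0 := congrArg φ e0
  have f1 := congrArg φ e1
  have f2 := congrArg φ e2
  have f3 := congrArg φ e3
  have f4 := congrArg φ e4
  have f5 := congrArg φ e5
  have f6 := congrArg φ e6
  have f7 := congrArg φ e7
  have f8 := congrArg φ e8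
  have fM := congrArg φ hM
  simp only [map_add, map_sub, map_mul, map_neg, map_one, map_ofNat, φC, φ0, φ1, φ2]
    at f0 f1 f2 f3 f4 f5 f6 f7 f8 fM
  have u1 : ∀ c : ℂ, c ≠ 0 → ∀ p F : S 4, p ∣ C c * F → p ∣ F := fun c hc p F h =>
    (IsUnit.dvd_mul_left (IsUnit.map C (isUnit_iff_ne_zero.2 hc))).1 h
  have d1 : (X 1 - C r * X 2 : S 4) ^ 2 ∣ φ (θ 0) := by
    refine u1 (24 * r) (mul_ne_zero (by norm_num) r0) _ _ ⟨φ M, ?_⟩
    rw [map_mul, map_ofNat]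
    linear_combination ((3 - C r) * (C r - 1)) * f0 + ((-3 - C r) * (-1 - C r)) * f1 +
      (2 * C r * (-4)) * f2 + (X 1 - C r * X 2) * fM + (2 * C r * φ (θ 0)) * hT
  have d2 : (X 2 : S 4) ∣ φ (θ 0) := ⟨φ (h 3) - φ (h 6), by linear_combination f3 - f6⟩
  have d3 : (X 1 - X 2 : S 4) ∣ φ (θ 0) := by
    refine u1 2 (by norm_num) _ _ ⟨φ (h 4) - φ (h 7), ?_⟩
    rw [map_ofNat]
    linear_combination f4 - f7
  have d4 : (X 1 + X 2 : S 4) ∣ φ (θ 0) := by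
    refine u1 4 (by norm_num) _ _ ⟨φ (h 5) - φ (h 8), ?_⟩
    rw [map_ofNat]
    linear_combination f5 - f8
  obtain ⟨F1, h1⟩ := d1
  rw [h1] at d2 d3 d4 ⊢
  obtain ⟨F2, rfl⟩ := dvd_cancel pz ![0, 1, 0, 0, 0] (by simp) (by simp) d2
  rw [← mul_assoc] at d3 d4 ⊢
  obtain ⟨F3, rfl⟩ := dvd_cancel pm ![0, 1, 1, 0, 0] (by simp)
    (by simpa [sub_eq_zero] using fun h : (1 : ℂ) = r => r1 (by rw [← h]; ring)) d3
  rw [← mul_assoc] at d4 ⊢
  obtain ⟨F4, rfl⟩ := dvd_cancel pp ![0, -1, 1, 0, 0] (by simp)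
    (by
      have : (-1 : ℂ) - r ≠ 0 := fun h => r2 (by linear_combination -h)
      have h2 : (-1 : ℂ) - 1 ≠ 0 := by norm_num
      simpa using ⟨this, h2⟩) d4
  exact ⟨F4, by rw [gp]; ring⟩

lemma clear {a : Fin 9 → Fin 3 → ℂ} {I : Finset (Fin 5)} {v : Fin 3 → K 4} (hv : DI a I v) :
    ∃ k : ℕ, ∃ θ : Fin 3 → S 4, ∃ h : Fin 9 → S 4, (∀ i, ι (θ i) = ι (xI I ^ k) * v i) ∧
      ∀ j, C (a j 0) * θ 0 + C (a j 1) * θ 1 + C (a j 2) * θ 2 = al (a j) * h j := by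
  choose h hh e using hv.2
  obtain ⟨k, -, m, hm⟩ := common (fun _ : Fin 3 ⊕ Fin 9 => I) (Sum.elim v h) (by
    rintro (i | j); exacts [hv.1 i, hh j])
  refine ⟨k, fun i => m (Sum.inl i), fun j => m (Sum.inr j), fun i => hm (Sum.inl i), fun j => ?_⟩
  apply ι_inj
  simp only [map_add, map_mul, hm, Sum.elim_inl, Sum.elim_inr]
  linear_combination ι (xI I ^ k) * e j

lemma G1 (hr : r ^ 2 + 3 = 0) (I : Finset (Fin 5)) (v : Fin 3 → K 4) (hv : DI (lines r) I v) :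
    ∃ s ∈ SI I, XW I (v 0 - ι (3 * gp r) * s) := by
  obtain ⟨k, θ, h, hθ, e⟩ := clear hv
  obtain ⟨F, hF⟩ := g_dvd hr e
  obtain ⟨A, B, hAB⟩ := sub_φ (θ 0)
  have h0 := ι_ne (pow_ne_zero k (xI_ne I))
  have h3 : (3 : K 4) ≠ 0 := by exact_mod_cast d_ne (d := 3) (by norm_num)
  have h3' : (3 : K 4)⁻¹ ∈ SI I := by exact_mod_cast inv_d_mem (d := 3) (by norm_num) I
  refine ⟨3⁻¹ * (ι F / ι (xI I ^ k)), mul_mem h3' (div_xI_mem I F k), ι A / ι (xI I ^ k),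
    div_xI_mem I A k, ι B / ι (xI I ^ k), div_xI_mem I B k, ?_⟩
  have e1 := congrArg ι hAB
  rw [hF] at e1
  simp only [map_sub, map_add, map_mul, hθ] at e1
  rw [map_mul, map_ofNat]
  field_simp
  linear_combination e1

lemma DI_poly {a : Fin 9 → Fin 3 → ℂ} (θ : Fin 3 → S 4)
    (e : ∀ j, ∃ h, C (a j 0) * θ 0 + C (a j 1) * θ 1 + C (a j 2) * θ 2 = al (a j) * h) :
    DI a ∅ fun i => ι (θ i) := by
  refine ⟨fun i => ι_mem _ _, fun j => ?_⟩
  obtain ⟨h, e⟩ := e j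
  refine ⟨ι h, ι_mem _ _, ?_⟩
  simpa only [map_add, map_mul] using congrArg ι e

lemma gp_ne (t : ℂ) : gp t ≠ 0 := by
  by_cases h : t = 2
  · exact ne_of_eval ![0, 3, 1, 0, 0] (by simp [gp, h]; norm_num)
  · exact ne_of_eval ![0, 2, 1, 0, 0] (by simp [gp, sub_eq_zero, Ne.symm h]; norm_num)

theorem free_r (hr : r ^ 2 + 3 = 0) (ha : ∀ j, al (lines r j) ≠ 0) : H2P (DA (lines r)) := by
  have hT : (C r : S 4) ^ 2 + 3 = 0 := by
    have := congrArg (C : ℂ → S 4) hr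
    simpa [map_ofNat] using this
  refine vanish ha (g := 3 * gp r) ?_ (G1 hr)
    (fun i => ι (![th0 (C r) (X 0) (X 1) (X 2), th1 (C r) (X 0) (X 1) (X 2), 0] i))
    (DI_poly _ fun j => ?_) ?_
  · rw [map_mul, map_ofNat, φ_gp]
    exact mul_ne_zero (by norm_num) (gp_ne r)
  · fin_cases j
    · exact ⟨_, by simpa [al, lines] using rel0 (C r : S 4) (X 0) (X 1) (X 2) hT⟩
    · exact ⟨_, by simpa [al, lines] using rel1 (C r : S 4) (X 0) (X 1) (X 2) hT⟩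
    · exact ⟨_, by simpa [al, lines, map_ofNat] using rel2 (C r : S 4) (X 0) (X 1) (X 2) hT⟩
    · exact ⟨0, by simp [lines]⟩
    · exact ⟨_, by simpa [al, lines] using rel4 (C r : S 4) (X 0) (X 1) (X 2) hT⟩
    · exact ⟨_, by simpa [al, lines] using rel5 (C r : S 4) (X 0) (X 1) (X 2) hT⟩
    · exact ⟨_, by simpa [al, lines] using rel6 (C r : S 4) (X 0) (X 1) (X 2) hT⟩
    · exact ⟨_, by simpa [al, lines, map_ofNat] using rel7 (C r : S 4) (X 0) (X 1) (X 2) hT⟩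
    · exact ⟨_, by simpa [al, lines, map_ofNat] using rel8 (C r : S 4) (X 0) (X 1) (X 2) hT⟩
  · rw [← map_sub]
    apply XW_of_φ
    have : φ (th0 (C r) (X 0) (X 1) (X 2)) = th0 (C r) 0 (X 1) (X 2) := by
      simp only [th0, map_add, map_mul, map_pow, map_neg, map_ofNat, φC, φ0, φ1, φ2]
    simp only [Matrix.cons_val_zero, map_sub, map_mul, map_ofNat, φ_gp, this, th0_zero _ _ _ hT]
    rw [gp, sub_self]

end

end Pool.Agent.H311Z.SF
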