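import Pool.Agent.H311Z.SF.NonFree
import Pool.Agent.H233Z.Terao.Latt

/-! The two arrangements have isomorphic intersection lattices. -/

namespace Pool.Agent.H311Z.SF

open MvPolynomial Pool.Agent.H233Z.Terao

noncomputable section

/-- the nine lines together with the line `x = 0` -/
def B10 {R : Type} [CommRing R] (a : Fin 9 → Fin 3 → R) : Fin 10 → Fin 3 → R :=
  Fin.cons ![1, 0, 0] a

def R3 (a : Fin 9 → Fin 3 → ℂ) (T : Finset (Fin 10)) (j : Fin 10) : Prop :=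
  ∀ q : Fin 3 → ℂ, (∀ i ∈ T, dt (B10 a i) q = 0) → dt (B10 a j) q = 0

lemma R3_iff {a : Fin 9 → Fin 3 → ℂ} (ha : Good (B10 a)) (T : Finset (Fin 10)) (j : Fin 10) :
    R3 a T j ↔ Clos (Matrix.of (B10 a)) T j := by
  rw [← le_iff_clos (A := Matrix.of (B10 a)) ha]
  simp only [R3, SetLike.le_def, Submodule.mem_iInf, mem_plane]
  rfl

lemma hyp_left (a : Fin 9 → Fin 3 → ℂ) (j : Fin 9) (p : Fin 5 → ℂ) :
    p ∈ hyperplane (n := 4) (arr a (Fin.castAdd 3 j)) ↔ dt (a j) ![p 0, p 1, p 2] = 0 := by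
  rw [arr, Fin.append_left]
  simp [hyperplane, Fin.sum_univ_five, dt]

lemma hyp_w (a : Fin 9 → Fin 3 → ℂ) (p : Fin 5 → ℂ) :
    p ∈ hyperplane (n := 4) (arr a 9) ↔ p 3 = 0 := by
  rw [show (9 : Fin (9 + 3)) = Fin.natAdd 9 0 from rfl, arr, Fin.append_right]
  simp [hyperplane, Fin.sum_univ_five]

lemma hyp_xw (a : Fin 9 → Fin 3 → ℂ) (p : Fin 5 → ℂ) :
    p ∈ hyperplane (n := 4) (arr a 10) ↔ p 0 + p 3 = 0 := by
  rw [show (10 : Fin (9 + 3)) = Fin.natAdd 9 1 from rfl, arr, Fin.append_right]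
  simp [hyperplane, Fin.sum_univ_five]

lemma hyp_u (a : Fin 9 → Fin 3 → ℂ) (p : Fin 5 → ℂ) :
    p ∈ hyperplane (n := 4) (arr a 11) ↔ p 4 = 0 := by
  rw [show (11 : Fin (9 + 3)) = Fin.natAdd 9 2 from rfl, arr, Fin.append_right]
  simp [hyperplane, Fin.sum_univ_five]

lemma cases12 {P : Fin (9 + 3) → Prop} (h : ∀ j, P (Fin.castAdd 3 j)) (h0 : P (Fin.natAdd 9 0))
    (h1 : P (Fin.natAdd 9 1)) (h2 : P (Fin.natAdd 9 2)) (i : Fin (9 + 3)) : P i := by
  refine Fin.addCases h (fun j => ?_) i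
  fin_cases j
  exacts [h0, h1, h2]

lemma cases12' {P : Fin (9 + 3) → Prop} (h : ∀ j, P (Fin.castAdd 3 j)) (h0 : P 9)
    (h1 : P 10) (h2 : P 11) (i : Fin (9 + 3)) : P i := cases12 h h0 h1 h2 i

lemma transfer {a b : Fin 9 → Fin 3 → ℂ} (hR : ∀ T j, R3 a T j → R3 b T j)
    (T : Finset (Fin (9 + 3))) (j : Fin (9 + 3))
    (h : (⋂ i ∈ T, hyperplane (n := 4) (arr a i)) ⊆ hyperplane (n := 4) (arr a j)) :
    (⋂ i ∈ T, hyperplane (n := 4) (arr b i)) ⊆ hyperplane (n := 4) (arr b j) := by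
  classical
  intro p hp
  simp only [Set.mem_iInter] at hp
  let T0 : Finset (Fin 10) := Finset.univ.filter fun i =>
    (Fin.cons (9 ∈ T ∧ 10 ∈ T) (fun j => Fin.castAdd 3 j ∈ T) :
      Fin 10 → Prop) i
  have m0 : (0 : Fin 10) ∈ T0 ↔ 9 ∈ T ∧ 10 ∈ T := by simp [T0]
  have mS : ∀ j : Fin 9, j.succ ∈ T0 ↔ Fin.castAdd 3 j ∈ T := fun j => by simp [T0]
  have hb : ∀ i ∈ T0, dt (B10 b i) ![p 0, p 1, p 2] = 0 := by
    intro i
    refine Fin.cases (fun hi => ?_) (fun j hi => ?_) i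
    · have h1 := (hyp_w b p).1 (hp _ (m0.1 hi).1)
      have h2 := (hyp_xw b p).1 (hp _ (m0.1 hi).2)
      simp only [B10, Fin.cons_zero, dt, Matrix.cons_val]
      linear_combination h2 - h1
    · exact (hyp_left b j p).1 (hp _ ((mS j).1 hi))
  have lift : ∀ (q : Fin 3 → ℂ) (s t : ℂ), (∀ i ∈ T0, dt (B10 a i) q = 0) →
      (![q 0, q 1, q 2, if 9 ∈ T then 0 else if 10 ∈ T then -q 0 else s,
        if 11 ∈ T then 0 else t] : Fin 5 → ℂ) ∈ hyperplane (n := 4) (arr a j) := by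
    intro q s t hq
    apply h
    simp only [Set.mem_iInter]
    intro i
    refine cases12' (P := fun i => i ∈ T → _ ∈ hyperplane (n := 4) (arr a i)) (fun j hi => ?_)
      (fun hi => ?_) (fun hi => ?_) (fun hi => ?_) i
    · rw [hyp_left]
      exact hq _ ((mS j).2 hi)
    · rw [hyp_w]; simp [hi]
    · rw [hyp_xw]
      by_cases hw : 9 ∈ T
      · have := hq _ (m0.2 ⟨hw, hi⟩)
        simpa [hw, B10, dt] using this
      · simp [hw, hi]
    · rw [hyp_u]; simp [hi]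
  have zq : ∀ i ∈ T0, dt (B10 a i) 0 = 0 := fun i _ => by simp [dt]
  have x0 : R3 a T0 0 → p 0 = 0 := fun h0 => by
    simpa [B10, dt] using hR _ _ h0 _ hb
  revert lift
  refine cases12' (P := fun j => (∀ (q : Fin 3 → ℂ) (s t : ℂ), (∀ i ∈ T0, dt (B10 a i) q = 0) →
      (![q 0, q 1, q 2, if 9 ∈ T then 0 else if 10 ∈ T then -q 0 else s,
        if 11 ∈ T then 0 else t] : Fin 5 → ℂ) ∈ hyperplane (n := 4) (arr a j)) →
      p ∈ hyperplane (n := 4) (arr b j)) (fun j lift => ?_) (fun lift => ?_) (fun lift => ?_)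
      (fun lift => ?_) j
  · rw [hyp_left]
    exact hR T0 j.succ (fun q hq => (hyp_left a j _).1 (lift q 0 0 hq)) _ hb
  · by_cases hw : 9 ∈ T
    · exact hp _ hw
    by_cases hx : 10 ∈ T
    · have h1 := x0 fun q hq => by simpa [hw, hx, B10, dt] using (hyp_w a _).1 (lift q 0 0 hq)
      have h2 := (hyp_xw b p).1 (hp _ hx)
      rw [hyp_w]
      linear_combination h2 - h1
    · simpa [hw, hx] using (hyp_w a _).1 (lift 0 1 0 zq)
  · by_cases hx : 10 ∈ T
    · exact hp _ hx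
    by_cases hw : 9 ∈ T
    · have h1 := x0 fun q hq => by simpa [hw, hx, B10, dt] using (hyp_xw a _).1 (lift q 0 0 hq)
      have h2 := (hyp_w b p).1 (hp _ hw)
      rw [hyp_xw]
      linear_combination h2 + h1
    · simpa [hw, hx] using (hyp_xw a _).1 (lift 0 1 0 zq)
  · by_cases hu : 11 ∈ T
    · exact hp _ hu
    · simpa [hu] using (hyp_u a _).1 (lift 0 0 1 zq)

lemma iso_of {n d : ℕ} {A B : Fin d → Fin (n + 1) → ℂ}
    (h : ∀ (T : Finset (Fin d)) j, (⋂ i ∈ T, hyperplane (A i)) ⊆ hyperplane (A j) ↔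
      (⋂ i ∈ T, hyperplane (B i)) ⊆ hyperplane (B j)) : Nonempty (lattice A ≃o lattice B) := by
  have hle : ∀ S T : Finset (Fin d), (⋂ i ∈ S, hyperplane (A i)) ⊆ (⋂ i ∈ T, hyperplane (A i)) ↔
      (⋂ i ∈ S, hyperplane (B i)) ⊆ (⋂ i ∈ T, hyperplane (B i)) := by
    intro S T
    simp only [Set.subset_iInter_iff]
    exact forall₂_congr fun j _ => h S j
  let toF : lattice A → lattice B := fun W => ⟨⋂ i ∈ W.2.choose, hyperplane (B i), _, rfl⟩
  let inF : lattice B → lattice A := fun W => ⟨⋂ i ∈ W.2.choose, hyperplane (A i), _, rfl⟩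
  have hmono : ∀ W W', toF W ≤ toF W' ↔ W ≤ W' := by
    intro W W'
    have h1 : (⋂ i ∈ W.2.choose, hyperplane (A i)) = W := W.2.choose_spec
    have h2 : (⋂ i ∈ W'.2.choose, hyperplane (A i)) = W' := W'.2.choose_spec
    rw [← Subtype.coe_le_coe, ← Subtype.coe_le_coe, ← hle, h1, h2]
  refine ⟨⟨⟨toF, inF, ?_, ?_⟩, fun {a b} => hmono a b⟩⟩
  · intro W
    apply Subtype.ext
    change (⋂ i ∈ (toF W).2.choose, hyperplane (A i)) = W
    have h1 : (⋂ i ∈ (toF W).2.choose, hyperplane (B i)) = toF W := (toF W).2.choose_spec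
    have h2 : (⋂ i ∈ W.2.choose, hyperplane (A i)) = W := W.2.choose_spec
    rw [← h2]
    apply Set.Subset.antisymm
    · rw [hle, h1]
    · rw [hle, h1]
  · intro W
    apply Subtype.ext
    change (⋂ i ∈ (inF W).2.choose, hyperplane (B i)) = W
    have h1 : (⋂ i ∈ (inF W).2.choose, hyperplane (A i)) = inF W := (inF W).2.choose_spec
    have h2 : (⋂ i ∈ W.2.choose, hyperplane (B i)) = W := W.2.choose_spec
    rw [← h2]
    apply Set.Subset.antisymm
    · rw [← hle, h1]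
    · rw [← hle, h1]

abbrev Z3 : Type := ℤ√(-3)

lemma same_d3 : ∀ i j k : Fin 10,
    d3 (B10 (lines (⟨0, 1⟩ : Z3)) i) (B10 (lines (⟨0, 1⟩ : Z3)) j) (B10 (lines (⟨0, 1⟩ : Z3)) k) = 0 ↔
    d3 (B10 (lines (⟨2, 0⟩ : Z3)) i) (B10 (lines (⟨2, 0⟩ : Z3)) j)
      (B10 (lines (⟨2, 0⟩ : Z3)) k) = 0 := by
  decide +kernel

lemma goodZ : ∀ t ∈ [(⟨0, 1⟩ : Z3), ⟨2, 0⟩], (∀ i : Fin 10, ∃ k, B10 (lines t) i k ≠ 0) ∧
    ∀ i j : Fin 10, i ≠ j → ∃ k, cr (B10 (lines t) i) (B10 (lines t) j) k ≠ 0 := by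
  decide +kernel

lemma B10_map (f : Z3 →+* ℂ) (t : Z3) (i : Fin 10) (k : Fin 3) :
    B10 (lines (f t)) i k = f (B10 (lines t) i k) := by
  refine Fin.cases ?_ (fun j => ?_) i
  · fin_cases k <;> simp [B10]
  · exact lines_map f t j k

lemma d3_map (f : Z3 →+* ℂ) (t : Z3) (i j k : Fin 10) :
    d3 (B10 (lines (f t)) i) (B10 (lines (f t)) j) (B10 (lines (f t)) k) =
      f (d3 (B10 (lines t) i) (B10 (lines t) j) (B10 (lines t) k)) := by
  simp only [d3, B10_map, map_add, map_mul, map_sub]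

lemma good_map {f : Z3 →+* ℂ} (hf : Function.Injective f) {t : Z3}
    (ht : t ∈ [(⟨0, 1⟩ : Z3), ⟨2, 0⟩]) : Good (B10 (lines (f t))) := by
  obtain ⟨h1, h2⟩ := goodZ t ht
  refine ⟨fun i h => ?_, fun i j hij => ?_⟩
  · obtain ⟨k, hk⟩ := h1 i
    exact hk (hf (by rw [← B10_map, h, map_zero]; rfl))
  · obtain ⟨k, hk⟩ := h2 i j hij
    refine ⟨k, fun h => hk (hf ?_)⟩
    rw [map_zero, ← h]
    fin_cases k <;> simp [cr, B10_map]

lemma isArr {a : Fin 9 → Fin 3 → ℂ} (ha : Good (B10 a)) : IsArrangement (n := 4) (arr a) := by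
  have nz : ∀ j, (![a j 0, a j 1, a j 2, 0, 0] : Fin 5 → ℂ) ≠ 0 := fun j h => ha.1 j.succ (by
    funext k
    fin_cases k
    exacts [congrFun h 0, congrFun h 1, congrFun h 2])
  have nx : ∀ j, a j 1 = 0 → a j 2 = 0 → False := fun j h1 h2 => by
    obtain ⟨k, hk⟩ := ha.2 0 j.succ (Fin.succ_ne_zero j).symm
    fin_cases k <;> simp [B10, cr, h1, h2] at hk
  refine ⟨cases12 (fun j => ?_) ?_ ?_ ?_, cases12 (fun j => cases12 (fun l => ?_) ?_ ?_ ?_)
    (cases12 (fun l => ?_) ?_ ?_ ?_) (cases12 (fun l => ?_) ?_ ?_ ?_)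
    (cases12 (fun l => ?_) ?_ ?_ ?_)⟩ <;>
    simp only [arr, Fin.append_left, Fin.append_right, Matrix.cons_val]
  · exact nz j
  · exact fun h => by simpa using congrFun h 3
  · exact fun h => by simpa using congrFun h 3
  · exact fun h => by simpa using congrFun h 4
  · intro hjl c h
    refine Good.ne_smul (A := Matrix.of (B10 a)) ha j.succ l.succ (fun e => hjl ?_) c ?_
    · rw [Fin.succ_injective _ e]
    · funext k
      fin_cases k
      exacts [congrFun h 0, congrFun h 1, congrFun h 2]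
  all_goals first
    | exact fun h => absurd rfl h
    | exact fun _ c h => nx _ (by simpa using congrFun h 1) (by simpa using congrFun h 2)
    | exact fun _ c h => by simpa using congrFun h 3
    | exact fun _ c h => by simpa using congrFun h 4
    | exact fun _ c h => by simpa using congrFun h 0
    | exact fun _ c h => by
        have h0 := congrFun h 0
        have h3 := congrFun h 3
        simp at h0 h3
        exact absurd (h0.trans h3.symm) (by norm_num)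

lemma form_ne {a : Fin 5 → ℂ} (ha : a ≠ 0) : form (n := 4) a ≠ 0 := fun h => ha (by
  funext i
  have := pderiv_form a i
  rw [h, map_zero] at this
  simpa using this.symm)

lemma sf_iff {a : Fin 9 → Fin 3 → ℂ} (ha : IsArrangement (n := 4) (arr a)) :
    StablyFree (n := 4) (arr a) ↔ H2P (DA a) := by
  have e : LA (arr a) = DA a := by
    funext I v; exact propext (LA_iff a I v)
  rw [← e, ← coh_iff_LA (fun j => form_ne (ha.1 j)) (by norm_num)]
  refine ⟨fun h => h 1 (by norm_num) (by norm_num), fun h p h1 h2 => ?_⟩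
  obtain rfl : p = 1 := by omega
  exact h

theorem main : ∃ A B : Fin 12 → Fin (4 + 1) → ℂ, IsArrangement A ∧ IsArrangement B ∧
    Nonempty (lattice A ≃o lattice B) ∧ StablyFree A ∧ ¬ StablyFree B := by
  obtain ⟨r, hr⟩ : ∃ r : ℂ, r * r = ((-3 : ℤ) : ℂ) := by
    obtain ⟨r, hr⟩ := IsAlgClosed.exists_eq_mul_self ((-3 : ℤ) : ℂ)
    exact ⟨r, hr.symm⟩
  let f : Z3 →+* ℂ := Zsqrtd.lift ⟨r, hr⟩
  have hf : Function.Injective f :=
    Zsqrtd.lift_injective _ fun n h => by nlinarith [mul_self_nonneg n]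
  have f1 : f ⟨0, 1⟩ = r := by simp [f]
  have f2 : f ⟨2, 0⟩ = 2 := by simp [f]
  have g1 : Good (B10 (lines r)) := f1 ▸ good_map hf (by simp)
  have g2 : Good (B10 (lines (2 : ℂ))) := f2 ▸ good_map hf (by simp)
  have hd : ∀ i j k, d3 (B10 (lines r) i) (B10 (lines r) j) (B10 (lines r) k) = 0 ↔
      d3 (B10 (lines (2 : ℂ)) i) (B10 (lines 2) j) (B10 (lines 2) k) = 0 := by
    intro i j k
    rw [← f1, ← f2, d3_map, d3_map, map_eq_zero_iff f hf, map_eq_zero_iff f hf, same_d3]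
  have hR : ∀ T j, R3 (lines r) T j ↔ R3 (lines 2) T j := by
    intro T j
    rw [R3_iff g1, R3_iff g2]
    have hd' : ∀ i j k, d3 (Matrix.of (B10 (lines r)) i) (Matrix.of (B10 (lines r)) j)
        (Matrix.of (B10 (lines r)) k) = 0 ↔ d3 (Matrix.of (B10 (lines (2 : ℂ))) i)
        (Matrix.of (B10 (lines 2)) j) (Matrix.of (B10 (lines 2)) k) = 0 := hd
    simp only [Clos, ne_eq, hd']
  refine ⟨arr (lines r), arr (lines 2), isArr g1, isArr g2, iso_of fun T j =>
    ⟨transfer (fun T j => (hR T j).1) T j, transfer (fun T j => (hR T j).2) T j⟩, ?_, ?_⟩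
  · refine (sf_iff (isArr g1)).2 ?_
    refine free_r (by push_cast at hr; linear_combination hr) fun j => ?_
    rw [← form_left]
    exact form_ne ((isArr g1).1 _)
  · exact fun h => nonfree_2 ((sf_iff (isArr g2)).1 h)

end

end Pool.Agent.H311Z.SF
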