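import Pool.Agent.H311Z.SF.Free

/-! The member `t = 2` of the family has non-vanishing `H²_*`. -/

namespace Pool.Agent.H311Z.SF

open MvPolynomial

noncomputable section

lemma DI_pt {a : Fin 9 → Fin 3 → ℂ} (p : Fin 3 → ℂ) (J : Finset (Fin 9))
    (h : ∀ j, j ∉ J → a j 0 * p 0 + a j 1 * p 1 + a j 2 * p 2 = 0) :
    DI a ∅ fun i => ι (C (p i) * ∏ j ∈ J, al (a j)) := by
  refine DI_poly (fun i => C (p i) * ∏ j ∈ J, al (a j)) fun j => ?_
  have e : C (a j 0) * (C (p 0) * ∏ j ∈ J, al (a j)) + C (a j 1) * (C (p 1) * ∏ j ∈ J, al (a j)) +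
      C (a j 2) * (C (p 2) * ∏ j ∈ J, al (a j)) =
      C (a j 0 * p 0 + a j 1 * p 1 + a j 2 * p 2) * ∏ j ∈ J, al (a j) := by
    simp only [map_add, map_mul]; ring
  rw [e]
  by_cases hj : j ∈ J
  · exact ((Finset.dvd_prod_of_mem _ hj).mul_left _)
  · exact ⟨0, by rw [h j hj]; simp⟩

def ev (p : ℤ × ℤ × ℤ) : S 4 →ₐ[ℂ] Polynomial (Polynomial ℂ) :=
  aeval ![Polynomial.C (Polynomial.C (p.1 : ℂ) * Polynomial.X),
    Polynomial.C (Polynomial.C (p.2.1 : ℂ) * Polynomial.X),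
    Polynomial.C (Polynomial.C (p.2.2 : ℂ) * Polynomial.X), 0, Polynomial.X]

def lam (k : ℕ) (p : ℤ × ℤ × ℤ) (f : S 4) : ℂ := ((ev p f).coeff k).coeff 5

lemma lam_add (k : ℕ) (p : ℤ × ℤ × ℤ) (f g : S 4) : lam k p (f + g) = lam k p f + lam k p g := by
  simp [lam]

lemma ev_C (p : ℤ × ℤ × ℤ) (c : ℂ) : ev p (C c) = Polynomial.C (Polynomial.C c) := by
  simp [ev]

lemma lam_C_mul (k : ℕ) (p : ℤ × ℤ × ℤ) (c : ℂ) (f : S 4) :
    lam k p (C c * f) = c * lam k p f := by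
  simp [lam]

lemma lam_mon (k : ℕ) (p : ℤ × ℤ × ℤ) (m : Fin (4 + 1) →₀ ℕ) (c : ℂ) :
    lam k p (monomial m c) = if m 0 + m 1 + m 2 = 5 ∧ m 3 = 0 ∧ m 4 = k then
      c * ((p.1 ^ m 0 * p.2.1 ^ m 1 * p.2.2 ^ m 2 : ℤ) : ℂ) else 0 := by
  have e : ev p (monomial m c) = Polynomial.C (Polynomial.C
      (c * ((p.1 ^ m 0 * p.2.1 ^ m 1 * p.2.2 ^ m 2 : ℤ) : ℂ) * 0 ^ m 3) *
        Polynomial.X ^ (m 0 + m 1 + m 2)) * Polynomial.X ^ m 4 := by
    rw [ev, aeval_monomial, Finsupp.prod_fintype _ _ (by simp), Fin.prod_univ_five]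
    simp only [Matrix.cons_val, Polynomial.algebraMap_apply, Algebra.algebraMap_self_apply,
      map_mul, map_pow, map_zero, Int.cast_mul, Int.cast_pow]
    ring
  rw [lam, e, Polynomial.coeff_C_mul_X_pow]
  by_cases h4 : m 4 = k
  · rw [if_pos h4.symm, Polynomial.coeff_C_mul_X_pow]
    by_cases h5 : m 0 + m 1 + m 2 = 5
    · rw [if_pos h5.symm]
      by_cases h3 : m 3 = 0
      · simp [h3, h4, h5]
      · simp [h3]
    · rw [if_neg (Ne.symm h5), if_neg (by tauto)]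
  · rw [if_neg (Ne.symm h4), if_neg (by tauto), Polynomial.coeff_zero]

lemma cert_on : ∀ e ∈ cert, lines (2 : ℤ) e.2.1 0 * e.2.2.1 + lines (2 : ℤ) e.2.1 1 * e.2.2.2.1 +
    lines (2 : ℤ) e.2.1 2 * e.2.2.2.2 = 0 := by decide +kernel

lemma cert_sum : ∀ i : Fin 3, ∀ m0 < 6, ∀ m1 < 6, ∀ m2 < 6, m0 + m1 + m2 = 5 →
    (cert.map fun e => e.1 * lines (2 : ℤ) e.2.1 i *
      (e.2.2.1 ^ m0 * e.2.2.2.1 ^ m1 * e.2.2.2.2 ^ m2)).sum =
      if i = 0 then 105840 * (0 ^ m0 * 3 ^ m1 * 1 ^ m2) else 0 := by decide +kernel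

lemma lines_map {R R' : Type} [CommRing R] [CommRing R'] (f : R →+* R') (t : R) (j : Fin 9)
    (i : Fin 3) : lines (f t) j i = f (lines t j i) := by
  fin_cases j <;> fin_cases i <;> simp [lines, map_ofNat]

lemma lines2 (j : Fin 9) (i : Fin 3) : lines (2 : ℂ) j i = (lines (2 : ℤ) j i : ℤ) := by
  simpa using lines_map (Int.castRingHom ℂ) 2 j i

def Φ (k : ℕ) (i : Fin 3) (f : S 4) : ℂ :=
  (cert.map fun e => (e.1 : ℂ) * lines (2 : ℂ) e.2.1 i * lam k e.2.2 f).sum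

lemma Φ_eq (k : ℕ) (i : Fin 3) (f : S 4) :
    Φ k i f = if i = 0 then 105840 * lam k (0, 3, 1) f else 0 := by
  induction f using MvPolynomial.induction_on' with
  | add f g hf hg =>
    have : Φ k i (f + g) = Φ k i f + Φ k i g := by
      simp only [Φ, lam_add, mul_add, List.sum_map_add]
    rw [this, hf, hg, lam_add]
    split_ifs <;> ring
  | monomial m c =>
    simp only [Φ, lam_mon]
    by_cases h : m 0 + m 1 + m 2 = 5 ∧ m 3 = 0 ∧ m 4 = k
    · simp only [if_pos h]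
      have h1 := congrArg (fun n : ℤ => c * (n : ℂ))
        (cert_sum i (m 0) (by omega) (m 1) (by omega) (m 2) (by omega) h.1)
      simp only [Int.cast_list_sum, List.map_map, ← List.sum_map_mul_left] at h1
      refine Eq.trans (congrArg List.sum ?_) (h1.trans ?_)
      · refine List.map_congr_left fun e _ => ?_
        simp only [Function.comp, lines2]
        push_cast
        ring
      · split_ifs <;> push_cast <;> ring
    · simp [if_neg h]

lemma ev_al (p : ℤ × ℤ × ℤ) (a : Fin 3 → ℂ) (h : a 0 * p.1 + a 1 * p.2.1 + a 2 * p.2.2 = 0) :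
    ev p (al a) = 0 := by
  have := congrArg (fun c : ℂ => (Polynomial.C (Polynomial.C c * Polynomial.X) :
    Polynomial (Polynomial ℂ))) h
  simp only [map_add, map_mul, add_mul, map_zero, zero_mul] at this
  simp only [al, map_add, map_mul, ev_C]
  simp only [ev, aeval_X, Matrix.cons_val, map_mul]
  linear_combination this

lemma ev_φ (f : S 4) : ev (0, 3, 1) (φ f) = ev (0, 3, 1) f := by
  obtain ⟨A, B, e⟩ := sub_φ f
  have := congrArg (ev (0, 3, 1)) e
  have h0 : ev (0, 3, 1) (X 0) = 0 := by simp [ev]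
  have h3 : ev (0, 3, 1) (X 3) = 0 := by simp [ev]
  simp only [map_sub, map_add, map_mul, h0, h3] at this
  linear_combination -this

lemma NO2 (θ : Fin 3 → S 4) (h : Fin 9 → S 4) (k : ℕ) (P : S 4)
    (e : ∀ j, C (lines 2 j 0) * θ 0 + C (lines 2 j 1) * θ 1 + C (lines 2 j 2) * θ 2 =
      al (lines 2 j) * h j) : φ (θ 0) ≠ φ (gp 2) * X 4 ^ k + P * X 4 ^ (k + 1) := by
  intro H
  have h1 : Φ k 0 (θ 0) + Φ k 1 (θ 1) + Φ k 2 (θ 2) = 0 := by
    simp only [Φ, ← List.sum_map_add]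
    refine List.sum_eq_zero fun c hc => ?_
    obtain ⟨t, ht, rfl⟩ := List.mem_map.1 hc
    have h2 := congrArg (lam k t.2.2) (e t.2.1)
    rw [lam_add, lam_add, lam_C_mul, lam_C_mul, lam_C_mul] at h2
    have h3 : lam k t.2.2 (al (lines 2 t.2.1) * h t.2.1) = 0 := by
      rw [lam, map_mul, ev_al _ _ (by
        simp only [lines2]; exact_mod_cast cert_on t ht)]
      simp
    linear_combination (t.1 : ℂ) * (h2.trans h3)
  simp only [Φ_eq] at h1
  have h2 : lam k (0, 3, 1) (θ 0) = 8 := by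
    have h4 : ev (0, 3, 1) (X 4) = Polynomial.X := by simp [ev]
    have hg : ev (0, 3, 1) (gp 2) = Polynomial.C (Polynomial.C 8 * Polynomial.X ^ 5) := by
      simp only [gp, map_mul, map_pow, map_sub, map_add, ev_C]
      simp only [ev, aeval_X, Matrix.cons_val, map_mul, Int.cast_ofNat, Int.cast_one, map_one,
        map_ofNat]
      ring
    rw [lam, ← ev_φ, H, φ_gp, map_add, map_mul, map_mul, map_pow, map_pow, h4, hg,
      Polynomial.coeff_add, Polynomial.coeff_C_mul_X_pow, if_pos rfl,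
      Polynomial.coeff_mul_X_pow' _ (k + 1), if_neg (by omega), add_zero,
      Polynomial.coeff_C_mul_X_pow, if_pos rfl]
  rw [h2, if_pos trivial, if_neg (by decide), if_neg (by decide)] at h1
  norm_num at h1

theorem nonfree_2 : ¬ H2P (DA (lines 2)) := by
  have hP := DI_pt (a := lines 2) ![1, 0, 0] {0, 1, 2, 6, 7, 8} (by
    intro j; fin_cases j <;> simp [lines])
  have hz := DI_pt (a := lines 2) ![1, 1, -1] {0, 2, 3, 4, 6, 8} (by
    intro j; fin_cases j <;> simp [lines] <;> norm_num)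
  have φal : ∀ a : Fin 3 → ℂ, φ (al a) = C (a 1) * X 1 + C (a 2) * X 2 := fun a => by
    simp only [al, map_add, map_mul, φC, φ0, φ1, φ2]; ring
  refine nonvanish (g := gp 2) _ _ (hP.add (hz.smul (ι_mem ∅ 2))) hz ?_ ?_ NO2
  · simp only [Pi.add_apply, Pi.smul_apply, smul_eq_mul, ← map_mul, ← map_add, ← map_sub]
    apply XW_of_φ
    simp only [map_sub, map_add, map_mul, map_prod, φal, φC, φ_gp, φ1, map_ofNat]
    simp [Finset.prod_insert, lines, gp, map_ofNat]
    ring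
  · simp only [← map_mul, ← map_sub]
    apply XW_of_φ
    simp only [map_sub, map_mul, map_prod, φal, φC, φ_gp, φ2]
    simp [Finset.prod_insert, lines, gp, map_ofNat]
    ring

end

end Pool.Agent.H311Z.SF
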