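import Pool.Agent.H311Z.SF.Cech

/-! Reduction of the vanishing of `H²_*` to an explicit statement about `D(𝒜)`. -/

namespace Pool.Agent.H311Z.SF

open MvPolynomial

noncomputable section

variable {d : ℕ}

def H2P (P : Finset (Fin 5) → (Fin 5 → K 4) → Prop) : Prop :=
  ∀ c : Fin 5 → Fin 5 → Fin 5 → Fin 5 → K 4, (∀ i j l, P {i, j, l} (c i j l)) →
    (∀ i j l r, c j l r - c i l r + c i j r - c i j l = 0) →
    ∃ b : Fin 5 → Fin 5 → Fin 5 → K 4, (∀ i j, P {i, j} (b i j)) ∧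
      ∀ i j l, b j l - b i l + b i j = c i j l

lemma image2 (τ : Fin 2 → Fin 5) : Finset.univ.image τ = {τ 0, τ 1} := by
  ext x; simp [Fin.exists_fin_two, eq_comm]

lemma image3 (τ : Fin 3 → Fin 5) : Finset.univ.image τ = {τ 0, τ 1, τ 2} := by
  ext x; simp [Fin.exists_fin_succ, eq_comm]

lemma cech1 {G : Type} [AddCommGroup G] (b : (Fin 2 → Fin 5) → G) (σ : Fin 3 → Fin 5) :
    cech (n := 4) (p := 1) b σ = b ![σ 1, σ 2] - b ![σ 0, σ 2] + b ![σ 0, σ 1] := by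
  have e0 : (fun l => σ ((0 : Fin 3).succAbove l)) = ![σ 1, σ 2] := by
    funext l; fin_cases l <;> rfl
  have e1 : (fun l => σ ((1 : Fin 3).succAbove l)) = ![σ 0, σ 2] := by
    funext l; fin_cases l <;> rfl
  have e2 : (fun l => σ ((2 : Fin 3).succAbove l)) = ![σ 0, σ 1] := by
    funext l; fin_cases l <;> rfl
  rw [cech, Fin.sum_univ_three, e0, e1, e2]
  simp [sub_eq_add_neg]

lemma cech2 {G : Type} [AddCommGroup G] (b : (Fin 3 → Fin 5) → G) (σ : Fin 4 → Fin 5) :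
    cech (n := 4) (p := 2) b σ =
      b ![σ 1, σ 2, σ 3] - b ![σ 0, σ 2, σ 3] + b ![σ 0, σ 1, σ 3] - b ![σ 0, σ 1, σ 2] := by
  have e0 : (fun l => σ ((0 : Fin 4).succAbove l)) = ![σ 1, σ 2, σ 3] := by
    funext l; fin_cases l <;> rfl
  have e1 : (fun l => σ ((1 : Fin 4).succAbove l)) = ![σ 0, σ 2, σ 3] := by
    funext l; fin_cases l <;> rfl
  have e2 : (fun l => σ ((2 : Fin 4).succAbove l)) = ![σ 0, σ 1, σ 3] := by
    funext l; fin_cases l <;> rfl
  have e3 : (fun l => σ ((3 : Fin 4).succAbove l)) = ![σ 0, σ 1, σ 2] := by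
    funext l; fin_cases l <;> rfl
  rw [cech, Fin.sum_univ_four, e0, e1, e2, e3]
  have : ((-1 : ℤ) ^ ((3 : Fin 4) : ℕ)) = -1 := by decide
  rw [this]
  simp [sub_eq_add_neg]

lemma coh_iff (M : Set (Fin 5 → S 4)) :
    CohVanishes (n := 4) M 1 ↔ H2P fun I v => v ∈ Loc (n := 4) M I := by
  constructor
  · intro h c hc hd
    obtain ⟨b, hb, e⟩ := h (fun σ => c (σ 0) (σ 1) (σ 2))
      (fun σ => by rw [image3]; exact hc _ _ _) (fun σ => by rw [cech2]; exact hd _ _ _ _)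
    refine ⟨fun i j => b ![i, j], fun i j => ?_, fun i j l => ?_⟩
    · have := hb ![i, j]
      rwa [image2] at this
    · have := e ![i, j, l]
      rwa [cech1] at this
  · intro h c hc hd
    obtain ⟨b, hb, e⟩ := h (fun i j l => c ![i, j, l])
      (fun i j l => by
        have := hc ![i, j, l]
        rwa [image3] at this)
      (fun i j l r => by
        have := hd ![i, j, l, r]
        rwa [cech2] at this)
    refine ⟨fun τ => b (τ 0) (τ 1), fun τ => by rw [image2]; exact hb _ _, fun σ => ?_⟩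
    rw [cech1]
    refine (e (σ 0) (σ 1) (σ 2)).trans ?_
    congr 1
    funext l; fin_cases l <;> rfl

def ap (a : Fin 5 → ℂ) (v : Fin 5 → K 4) : K 4 := ∑ i, ι (C (a i)) * v i

def LA (A : Fin d → Fin 5 → ℂ) (I : Finset (Fin 5)) (v : Fin 5 → K 4) : Prop :=
  (∀ i, v i ∈ SI I) ∧ ∀ j, ∃ h ∈ SI I, ap (A j) v = ι (form (n := 4) (A j)) * h

def tr (A : Fin d → Fin 5 → ℂ) (v : Fin 5 → K 4) : K 4 :=
  ∑ j, ap (A j) v / ι (form (n := 4) (A j))

lemma pderiv_form (a : Fin 5 → ℂ) (i : Fin 5) : pderiv i (form (n := 4) a) = C (a i) := by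
  simp [form, pderiv_X, Pi.single_apply]

lemma app_form (θ : Fin 5 → S 4) (a : Fin 5 → ℂ) :
    app (n := 4) θ (form (n := 4) a) = ∑ i, C (a i) * θ i := by
  exact Finset.sum_congr rfl fun i _ => by rw [pderiv_form, mul_comm]

lemma pderiv_prod {T : Type} [DecidableEq T] (s : Finset T) (f : T → S 4) (i : Fin 5) :
    pderiv i (∏ j ∈ s, f j) = ∑ j ∈ s, (∏ l ∈ s.erase j, f l) * pderiv i (f j) := by
  induction s using Finset.induction_on with
  | empty => simp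
  | insert a s ha ih =>
    rw [Finset.prod_insert ha, Finset.sum_insert ha, Finset.erase_insert ha, pderiv_mul, ih,
      Finset.mul_sum, mul_comm]
    congr 1
    refine Finset.sum_congr rfl fun j hj => ?_
    rw [Finset.erase_insert_of_ne (by rintro rfl; exact ha hj),
      Finset.prod_insert (fun h => ha (Finset.mem_of_mem_erase h)), mul_assoc]

lemma app_prod (A : Fin d → Fin 5 → ℂ) (θ : Fin 5 → S 4) :
    app (n := 4) θ (∏ j, form (n := 4) (A j)) =
      ∑ j, (∏ l ∈ Finset.univ.erase j, form (n := 4) (A l)) * app (n := 4) θ (form (n := 4) (A j)) := by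
  have : app (n := 4) θ (∏ j, form (n := 4) (A j)) = ∑ i, ∑ j,
      θ i * ((∏ l ∈ Finset.univ.erase j, form (n := 4) (A l)) * pderiv i (form (n := 4) (A j))) :=
    Finset.sum_congr rfl fun i _ => by rw [pderiv_prod, Finset.mul_sum]
  rw [this, Finset.sum_comm]
  refine Finset.sum_congr rfl fun j _ => ?_
  rw [app, Finset.mul_sum]
  exact Finset.sum_congr rfl fun i _ => by ring

lemma ι_app (θ : Fin 5 → S 4) (a : Fin 5 → ℂ) (t : K 4) (v : Fin 5 → K 4)
    (h : ∀ i, ι (θ i) = t * v i) : ι (app (n := 4) θ (form (n := 4) a)) = t * ap a v := by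
  rw [app_form, ap, map_sum, Finset.mul_sum]
  exact Finset.sum_congr rfl fun i _ => by rw [map_mul, h]; ring

lemma ι_app_prod {A : Fin d → Fin 5 → ℂ} (hA : ∀ j, form (n := 4) (A j) ≠ 0) (θ : Fin 5 → S 4)
    (t : K 4) (v : Fin 5 → K 4) (h : ∀ i, ι (θ i) = t * v i) :
    ι (app (n := 4) θ (∏ j, form (n := 4) (A j))) =
      t * ι (∏ j, form (n := 4) (A j)) * tr A v := by
  rw [app_prod, map_sum, tr, Finset.mul_sum]
  refine Finset.sum_congr rfl fun j _ => ?_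
  rw [map_mul, ι_app θ _ t v h, ← Finset.mul_prod_erase _ _ (Finset.mem_univ j), map_mul]
  have := ι_ne (hA j)
  field_simp

lemma loc_iff {A : Fin d → Fin 5 → ℂ} (hA : ∀ j, form (n := 4) (A j) ≠ 0) (I : Finset (Fin 5))
    (v : Fin 5 → K 4) : v ∈ Loc (n := 4) (D0 (n := 4) A) I ↔ LA A I v ∧ tr A v = 0 := by
  have hQ : ι (∏ j, form (n := 4) (A j)) ≠ 0 := ι_ne (Finset.prod_ne_zero_iff.2 fun j _ => hA j)
  constructor
  · rintro ⟨k, m, ⟨h1, h2⟩, hm⟩
    have h0 := ι_ne (pow_ne_zero k (xI_ne I))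
    refine ⟨⟨fun i => ⟨k, m i, hm i⟩, fun j => ?_⟩, ?_⟩
    · obtain ⟨h, hh⟩ := h1 j
      refine ⟨_, div_xI_mem I h k, ?_⟩
      have := ι_app m (A j) _ v hm
      rw [hh, map_mul] at this
      change _ = ι (xI I ^ k) * _ at this
      field_simp
      linear_combination -this
    · have := ι_app_prod hA m _ v hm
      rw [h2, map_zero] at this
      exact (mul_eq_zero.1 this.symm).resolve_left (mul_ne_zero h0 hQ)
  · rintro ⟨⟨h1, h2⟩, h3⟩
    choose h hh e using h2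
    obtain ⟨k, -, m, hm⟩ := common (fun _ : Fin 5 ⊕ Fin d => I) (Sum.elim v h) (by
      rintro (s | s)
      · exact h1 s
      · exact hh s)
    have hm' : ∀ i, ι (m (.inl i)) = ι (xI I ^ k) * v i := fun i => hm (.inl i)
    refine ⟨k, fun i => m (.inl i), ⟨fun j => ⟨m (.inr j), ?_⟩, ?_⟩, hm'⟩
    · apply ι_inj
      rw [ι_app _ _ _ v hm', map_mul, hm, e]
      simp only [Sum.elim_inr]; ring
    · apply ι_inj
      rw [ι_app_prod hA _ _ v hm', h3, mul_zero, map_zero]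

def eul : Fin 5 → K 4 := fun i => ι (X i)

lemma ap_add (a : Fin 5 → ℂ) (v w : Fin 5 → K 4) : ap a (v + w) = ap a v + ap a w := by
  simp [ap, mul_add, Finset.sum_add_distrib]

lemma ap_sub (a : Fin 5 → ℂ) (v w : Fin 5 → K 4) : ap a (v - w) = ap a v - ap a w := by
  simp [ap, mul_sub, Finset.sum_sub_distrib]

lemma ap_smul (a : Fin 5 → ℂ) (t : K 4) (v : Fin 5 → K 4) : ap a (t • v) = t * ap a v := by
  simp only [ap, Pi.smul_apply, smul_eq_mul, Finset.mul_sum]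
  exact Finset.sum_congr rfl fun i _ => by ring

lemma ap_eul (a : Fin 5 → ℂ) : ap a eul = ι (form (n := 4) a) := by
  simp [ap, eul, form]

lemma tr_add (A : Fin d → Fin 5 → ℂ) (v w : Fin 5 → K 4) : tr A (v + w) = tr A v + tr A w := by
  simp [tr, ap_add, add_div, Finset.sum_add_distrib]

lemma tr_sub (A : Fin d → Fin 5 → ℂ) (v w : Fin 5 → K 4) : tr A (v - w) = tr A v - tr A w := by
  simp [tr, ap_sub, sub_div, Finset.sum_sub_distrib]

lemma tr_smul (A : Fin d → Fin 5 → ℂ) (t : K 4) (v : Fin 5 → K 4) :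
    tr A (t • v) = t * tr A v := by
  simp [tr, ap_smul, Finset.mul_sum, mul_div_assoc]

lemma tr_zero (A : Fin d → Fin 5 → ℂ) : tr A 0 = 0 := by simp [tr, ap]

lemma tr_eul {A : Fin d → Fin 5 → ℂ} (hA : ∀ j, form (n := 4) (A j) ≠ 0) : tr A eul = d := by
  simp [tr, ap_eul, div_self (ι_ne (hA _))]

lemma tr_mem {A : Fin d → Fin 5 → ℂ} (hA : ∀ j, form (n := 4) (A j) ≠ 0) {I : Finset (Fin 5)}
    {v : Fin 5 → K 4} (h : LA A I v) : tr A v ∈ SI I := by
  refine Subring.sum_mem _ fun j _ => ?_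
  obtain ⟨h, hh, e⟩ := h.2 j
  rw [e, mul_div_cancel_left₀ _ (ι_ne (hA j))]
  exact hh

lemma LA_add_eul {A : Fin d → Fin 5 → ℂ} {I : Finset (Fin 5)} {v : Fin 5 → K 4} (h : LA A I v)
    {t : K 4} (ht : t ∈ SI I) : LA A I (v + t • eul) := by
  refine ⟨fun i => add_mem (h.1 i) (mul_mem ht (ι_mem _ _)), fun j => ?_⟩
  obtain ⟨h, hh, e⟩ := h.2 j
  exact ⟨h + t, add_mem hh ht, by rw [ap_add, ap_smul, ap_eul, e]; ring⟩

lemma inv_d_mem (hd : d ≠ 0) (I : Finset (Fin 5)) : ((d : K 4))⁻¹ ∈ SI I := by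
  have h1 : ι (C ((d : ℂ)⁻¹)) * (d : K 4) = 1 := by
    rw [← map_natCast ι d, ← map_mul, ← map_natCast (C : ℂ →+* S 4) d, ← map_mul,
      inv_mul_cancel₀ (by exact_mod_cast hd), map_one, map_one]
  rw [← eq_inv_of_mul_eq_one_left h1]
  exact ι_mem _ _

lemma d_ne (hd : d ≠ 0) : (d : K 4) ≠ 0 := by
  rw [← map_natCast ι d]
  apply ι_ne
  exact_mod_cast hd

theorem coh_iff_LA {A : Fin d → Fin 5 → ℂ} (hA : ∀ j, form (n := 4) (A j) ≠ 0) (hd : d ≠ 0) :
    CohVanishes (n := 4) (D0 (n := 4) A) 1 ↔ H2P (LA A) := by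
  rw [coh_iff]
  simp only [loc_iff hA]
  have hd' := d_ne hd
  have hπ : ∀ I v, LA A I v → LA A I (v + (-(tr A v * (d : K 4)⁻¹)) • eul) ∧
      tr A (v + (-(tr A v * (d : K 4)⁻¹)) • eul) = 0 := by
    intro I v h
    refine ⟨LA_add_eul h (neg_mem (mul_mem (tr_mem hA h) (inv_d_mem hd I))), ?_⟩
    rw [tr_add, tr_smul, tr_eul hA]
    field_simp
    ring
  constructor
  · intro h c hc hcd
    have htr : ∀ i j l r, tr A (c j l r) - tr A (c i l r) + tr A (c i j r) - tr A (c i j l) = 0 := by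
      intro i j l r
      rw [← tr_sub, ← tr_add, ← tr_sub, hcd, tr_zero]
    obtain ⟨b, hb, e⟩ := h (fun i j l => c i j l + (-(tr A (c i j l) * (d : K 4)⁻¹)) • eul)
      (fun i j l => hπ _ _ (hc i j l)) (fun i j l r => by
        funext s
        have h1 := congrFun (hcd i j l r) s
        simp only [Pi.add_apply, Pi.sub_apply, Pi.smul_apply, smul_eq_mul, Pi.zero_apply] at h1 ⊢
        linear_combination h1 - (d : K 4)⁻¹ * eul s * htr i j l r)
    obtain ⟨s, hs, es⟩ := H2S (fun i j l => tr A (c i j l)) (fun i j l => tr_mem hA (hc i j l)) htr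
    refine ⟨fun i j => b i j + (s i j * (d : K 4)⁻¹) • eul,
      fun i j => LA_add_eul (hb i j).1 (mul_mem (hs i j) (inv_d_mem hd _)), fun i j l => ?_⟩
    funext t
    have h1 := congrFun (e i j l) t
    simp only [Pi.add_apply, Pi.sub_apply, Pi.smul_apply, smul_eq_mul] at h1 ⊢
    linear_combination h1 + (d : K 4)⁻¹ * eul t * es i j l
  · intro h c hc hcd
    obtain ⟨b, hb, e⟩ := h c (fun i j l => (hc i j l).1) hcd
    refine ⟨fun i j => b i j + (-(tr A (b i j) * (d : K 4)⁻¹)) • eul,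
      fun i j => hπ _ _ (hb i j), fun i j l => ?_⟩
    have h2 : tr A (b j l) - tr A (b i l) + tr A (b i j) = 0 := by
      rw [← tr_sub, ← tr_add, e, (hc i j l).2]
    funext t
    have h1 := congrFun (e i j l) t
    simp only [Pi.add_apply, Pi.sub_apply, Pi.smul_apply, smul_eq_mul] at h1 ⊢
    linear_combination h1 - (d : K 4)⁻¹ * eul t * h2

/-- the arrangement in `ℙ⁴` attached to nine lines -/
def arr (a : Fin 9 → Fin 3 → ℂ) : Fin (9 + 3) → Fin 5 → ℂ :=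
  Fin.append (fun j => ![a j 0, a j 1, a j 2, 0, 0])
    ![![0, 0, 0, 1, 0], ![1, 0, 0, 1, 0], ![0, 0, 0, 0, 1]]

abbrev x : K 4 := ι (X 0)
abbrev y : K 4 := ι (X 1)
abbrev z : K 4 := ι (X 2)
abbrev w : K 4 := ι (X 3)
abbrev u : K 4 := ι (X 4)

def DA (a : Fin 9 → Fin 3 → ℂ) (I : Finset (Fin 5)) (v : Fin 5 → K 4) : Prop :=
  DI a I ![v 0, v 1, v 2] ∧ (∃ h ∈ SI I, v 3 = w * h) ∧ (∃ h ∈ SI I, v 0 + v 3 = (x + w) * h) ∧
    ∃ h ∈ SI I, v 4 = u * h

lemma form5 (a : Fin 5 → ℂ) : form (n := 4) a =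
    C (a 0) * X 0 + C (a 1) * X 1 + C (a 2) * X 2 + C (a 3) * X 3 + C (a 4) * X 4 :=
  Fin.sum_univ_five _

lemma ap5 (a : Fin 5 → ℂ) (v : Fin 5 → K 4) : ap a v =
    ι (C (a 0)) * v 0 + ι (C (a 1)) * v 1 + ι (C (a 2)) * v 2 + ι (C (a 3)) * v 3 +
      ι (C (a 4)) * v 4 :=
  Fin.sum_univ_five _

lemma form_left (a : Fin 9 → Fin 3 → ℂ) (j : Fin 9) :
    form (n := 4) (arr a (Fin.castAdd 3 j)) = al (a j) := by
  rw [form5, arr, Fin.append_left, al]; simp

lemma form_w (a : Fin 9 → Fin 3 → ℂ) : form (n := 4) (arr a (Fin.natAdd 9 0)) = X 3 := by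
  rw [form5, arr, Fin.append_right]; simp

lemma form_xw (a : Fin 9 → Fin 3 → ℂ) : form (n := 4) (arr a (Fin.natAdd 9 1)) = X 0 + X 3 := by
  rw [form5, arr, Fin.append_right]; simp

lemma form_u (a : Fin 9 → Fin 3 → ℂ) : form (n := 4) (arr a (Fin.natAdd 9 2)) = X 4 := by
  rw [form5, arr, Fin.append_right]; simp

lemma LA_iff (a : Fin 9 → Fin 3 → ℂ) (I : Finset (Fin 5)) (v : Fin 5 → K 4) :
    LA (arr a) I v ↔ DA a I v := by
  have e0 : ∀ j, ap (arr a (Fin.castAdd 3 j)) v =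
      ι (C (a j 0)) * v 0 + ι (C (a j 1)) * v 1 + ι (C (a j 2)) * v 2 := fun j => by
    rw [ap5, arr, Fin.append_left]; simp
  have e1 : ap (arr a (Fin.natAdd 9 0)) v = v 3 := by rw [ap5, arr, Fin.append_right]; simp
  have e2 : ap (arr a (Fin.natAdd 9 1)) v = v 0 + v 3 := by rw [ap5, arr, Fin.append_right]; simp
  have e3 : ap (arr a (Fin.natAdd 9 2)) v = v 4 := by rw [ap5, arr, Fin.append_right]; simp
  unfold LA DA DI
  rw [Fin.forall_fin_add, Fin.forall_fin_succ (n := 2), Fin.forall_fin_two]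
  simp only [e0, form_left]
  change _ ∧ _ ∧ (∃ h ∈ SI I, ap (arr a (Fin.natAdd 9 0)) v = ι (form (arr a (Fin.natAdd 9 0))) * h) ∧
    (∃ h ∈ SI I, ap (arr a (Fin.natAdd 9 1)) v = ι (form (arr a (Fin.natAdd 9 1))) * h) ∧
    (∃ h ∈ SI I, ap (arr a (Fin.natAdd 9 2)) v = ι (form (arr a (Fin.natAdd 9 2))) * h) ↔ _
  rw [e1, e2, e3, form_w, form_xw, form_u, map_add]
  constructor
  · rintro ⟨h0, h5, h6, h7, h8⟩
    refine ⟨⟨fun i => ?_, h5⟩, h6, h7, h8⟩
    fin_cases i <;> exact h0 _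
  · rintro ⟨⟨h0, h5⟩, h6, h7, h8⟩
    refine ⟨fun i => ?_, h5, h6, h7, h8⟩
    fin_cases i
    · exact h0 0
    · exact h0 1
    · exact h0 2
    · obtain ⟨h, hh, e⟩ := h6
      change v 3 ∈ _
      rw [e]; exact mul_mem (ι_mem _ _) hh
    · obtain ⟨h, hh, e⟩ := h8
      change v 4 ∈ _
      rw [e]; exact mul_mem (ι_mem _ _) hh

end

end Pool.Agent.H311Z.SF
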