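import Pool.Agent.H311Z.SF.Red

/-! The two directions of the criterion for the vanishing of `H²_*`. -/

namespace Pool.Agent.H311Z.SF

open MvPolynomial

noncomputable section

def XW (I : Finset (Fin 5)) (f : K 4) : Prop := ∃ p ∈ SI I, ∃ q ∈ SI I, f = x * p + w * q

lemma XW.add {I : Finset (Fin 5)} {f g : K 4} (hf : XW I f) (hg : XW I g) : XW I (f + g) := by
  obtain ⟨p, hp, q, hq, rfl⟩ := hf
  obtain ⟨p', hp', q', hq', rfl⟩ := hg
  exact ⟨p + p', add_mem hp hp', q + q', add_mem hq hq', by ring⟩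

lemma XW.mul {I : Finset (Fin 5)} {f t : K 4} (hf : XW I f) (ht : t ∈ SI I) : XW I (t * f) := by
  obtain ⟨p, hp, q, hq, rfl⟩ := hf
  exact ⟨t * p, mul_mem ht hp, t * q, mul_mem ht hq, by ring⟩

lemma XW.neg {I : Finset (Fin 5)} {f : K 4} (hf : XW I f) : XW I (-f) := by
  simpa using hf.mul (neg_mem (one_mem (SI I)))

lemma XW.sub {I : Finset (Fin 5)} {f g : K 4} (hf : XW I f) (hg : XW I g) : XW I (f - g) := by
  rw [sub_eq_add_neg]; exact hf.add hg.neg

lemma XW.mono {I J : Finset (Fin 5)} (h : I ⊆ J) {f : K 4} (hf : XW I f) : XW J f := by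
  obtain ⟨p, hp, q, hq, rfl⟩ := hf
  exact ⟨p, SI_mono h hp, q, SI_mono h hq, rfl⟩

lemma XW.congr {I : Finset (Fin 5)} {f g : K 4} (hf : XW I f) (h : g = f) : XW I g := h ▸ hf

lemma XW_zero (I : Finset (Fin 5)) : XW I 0 := ⟨0, zero_mem _, 0, zero_mem _, by ring⟩

lemma XW_triv {I : Finset (Fin 5)} (h : 0 ∈ I ∨ 3 ∈ I) {f : K 4} (hf : f ∈ SI I) : XW I f := by
  rcases h with h | h
  · refine ⟨x⁻¹ * f, mul_mem (inv_mem h) hf, 0, zero_mem _, ?_⟩
    have := ιX_ne 0
    field_simp; ring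
  · refine ⟨0, zero_mem _, w⁻¹ * f, mul_mem (inv_mem h) hf, ?_⟩
    have := ιX_ne 3
    field_simp; ring

def φ : S 4 →ₐ[ℂ] S 4 := aeval fun i => if i = 0 ∨ i = 3 then 0 else X i

lemma φ0 : φ (X 0) = 0 := by simp [φ]
lemma φ3 : φ (X 3) = 0 := by simp [φ]
lemma φX {i : Fin 5} (h0 : i ≠ 0) (h3 : i ≠ 3) : φ (X i) = X i := by simp [φ, h0, h3]

lemma sub_φ (p : S 4) : ∃ A B : S 4, p - φ p = X 0 * A + X 3 * B := by
  induction p using MvPolynomial.induction_on with
  | C a => exact ⟨0, 0, by simp [φ]⟩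
  | add p q hp hq =>
    obtain ⟨A, B, e⟩ := hp
    obtain ⟨A', B', e'⟩ := hq
    exact ⟨A + A', B + B', by rw [map_add]; linear_combination e + e'⟩
  | mul_X p i hp =>
    obtain ⟨A, B, e⟩ := hp
    by_cases h0 : i = 0
    · exact ⟨p, 0, by rw [map_mul, h0, φ0]; ring⟩
    by_cases h3 : i = 3
    · exact ⟨0, p, by rw [map_mul, h3, φ3]; ring⟩
    exact ⟨A * X i, B * X i, by rw [map_mul, φX h0 h3]; linear_combination (X i) * e⟩

lemma φ_xI {I : Finset (Fin 5)} (h0 : 0 ∉ I) (h3 : 3 ∉ I) : φ (xI I) = xI I := by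
  rw [xI, map_prod]
  exact Finset.prod_congr rfl fun j hj => φX (by rintro rfl; exact h0 hj) (by rintro rfl; exact h3 hj)

lemma XW_φ {I : Finset (Fin 5)} (h0 : 0 ∉ I) (h3 : 3 ∉ I) {f : K 4} (hf : XW I f) {p e : S 4}
    (h : ι p = ι e * f) : φ p = 0 := by
  obtain ⟨P, hP, Q, hQ, rfl⟩ := hf
  obtain ⟨k, -, m, hm⟩ := common (fun _ : Fin 2 => I) ![P, Q] (by
    intro t; fin_cases t; exacts [hP, hQ])
  have h1 : xI I ^ k * p = e * (X 0 * m 0 + X 3 * m 1) := by
    apply ι_inj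
    simp only [map_mul, map_add, h, hm, Matrix.cons_val]
    ring
  have h2 := congrArg φ h1
  simp only [map_mul, map_add, φ0, φ3, zero_mul, add_zero, mul_zero, map_pow, φ_xI h0 h3] at h2
  exact (mul_eq_zero.1 h2).resolve_left (pow_ne_zero _ (xI_ne I))

lemma XW_of_φ {I : Finset (Fin 5)} {p : S 4} (h : φ p = 0) : XW I (ι p) := by
  obtain ⟨A, B, e⟩ := sub_φ p
  rw [h, sub_zero] at e
  exact ⟨ι A, ι_mem _ _, ι B, ι_mem _ _, by rw [e]; simp only [map_add, map_mul]⟩

lemma XW_cancel {g : S 4} (hg : φ g ≠ 0) {I : Finset (Fin 5)} {r : K 4} (hr : r ∈ SI I)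
    (h : XW I (ι g * r)) : XW I r := by
  by_cases hI : 0 ∈ I ∨ 3 ∈ I
  · exact XW_triv hI hr
  push Not at hI
  obtain ⟨k, p, hp⟩ := hr
  have h1 : φ (g * p) = 0 := XW_φ hI.1 hI.2 h (e := xI I ^ k) (by rw [map_mul, hp]; ring)
  rw [map_mul] at h1
  have h2 := XW_of_φ (I := I) ((mul_eq_zero.1 h1).resolve_left hg)
  have h0 := ι_ne (pow_ne_zero k (xI_ne I))
  refine (h2.mul (div_xI_mem I 1 k)).congr ?_
  rw [hp, map_one]
  field_simp

lemma koszul1 {I : Finset (Fin 5)} {P Q : K 4} (hP : P ∈ SI I) (hQ : Q ∈ SI I)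
    (h : x * P + w * Q = 0) : ∃ e ∈ SI I, P = w * e ∧ Q = -(x * e) := by
  obtain ⟨k, -, m, hm⟩ := common (fun _ : Fin 2 => I) ![P, Q] (by
    intro t; fin_cases t; exacts [hP, hQ])
  have h1 : X 0 * m 0 = X 3 * (-m 1) := by
    apply ι_inj
    simp only [map_mul, map_neg, hm, Matrix.cons_val]
    linear_combination ι (xI I ^ k) * h
  have h2 : (X 3 : S 4) ∣ m 0 := by
    rcases (X_prime (i := (3 : Fin 5)) (R := ℂ)).dvd_or_dvd (Dvd.intro _ h1.symm) with h | h
    · rw [X_dvd_X] at h; exact absurd h (by decide)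
    · exact h
  obtain ⟨e, he⟩ := h2
  have h0 := ι_ne (pow_ne_zero k (xI_ne I))
  have h3 : P = w * (ι e / ι (xI I ^ k)) := by
    have := hm 0
    rw [he, map_mul] at this
    simp only [Matrix.cons_val] at this
    field_simp
    linear_combination -this
  refine ⟨_, div_xI_mem I e k, h3, ?_⟩
  apply mul_left_cancel₀ (ιX_ne 3)
  linear_combination h - x * h3

section subsets
variable (i j l r : Fin 5)
lemma s0 : ({j, l} : Finset (Fin 5)) ⊆ {i, j, l} := by intro a; simp; tauto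
lemma s1 : ({i, l} : Finset (Fin 5)) ⊆ {i, j, l} := by intro a; simp; tauto
lemma s2 : ({i, j} : Finset (Fin 5)) ⊆ {i, j, l} := by intro a; simp; tauto
lemma t0 : ({j, l, r} : Finset (Fin 5)) ⊆ {i, j, l, r} := by intro a; simp; tauto
lemma t1 : ({i, l, r} : Finset (Fin 5)) ⊆ {i, j, l, r} := by intro a; simp; tauto
lemma t2 : ({i, j, r} : Finset (Fin 5)) ⊆ {i, j, l, r} := by intro a; simp; tauto
lemma t3 : ({i, j, l} : Finset (Fin 5)) ⊆ {i, j, l, r} := by intro a; simp; tauto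
lemma r0 : ({j} : Finset (Fin 5)) ⊆ {i, j} := by intro a; simp; tauto
lemma r1 : ({i} : Finset (Fin 5)) ⊆ {i, j} := by intro a; simp; tauto
end subsets

lemma d0_mem {p : Fin 5 → K 4} (hp : ∀ i, p i ∈ SI {i}) (i j : Fin 5) : p j - p i ∈ SI {i, j} :=
  sub_mem (SI_mono (r0 i j) (hp _)) (SI_mono (r1 i j) (hp _))

lemma d1_mem {p : Fin 5 → Fin 5 → K 4} (hp : ∀ i j, p i j ∈ SI {i, j}) (i j l : Fin 5) :
    p j l - p i l + p i j ∈ SI {i, j, l} :=
  add_mem (sub_mem (SI_mono (s0 i j l) (hp _ _)) (SI_mono (s1 i j l) (hp _ _)))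
    (SI_mono (s2 i j l) (hp _ _))

lemma d2_mem {p : Fin 5 → Fin 5 → Fin 5 → K 4} (hp : ∀ i j l, p i j l ∈ SI {i, j, l})
    (i j l r : Fin 5) : p j l r - p i l r + p i j r - p i j l ∈ SI {i, j, l, r} :=
  sub_mem (add_mem (sub_mem (SI_mono (t0 i j l r) (hp _ _ _)) (SI_mono (t1 i j l r) (hp _ _ _)))
    (SI_mono (t2 i j l r) (hp _ _ _))) (SI_mono (t3 i j l r) (hp _ _ _))

lemma koszul2 (f : Fin 5 → Fin 5 → Fin 5 → K 4) (hf : ∀ i j l, XW {i, j, l} (f i j l))
    (hd : ∀ i j l r, f j l r - f i l r + f i j r - f i j l = 0) :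
    ∃ p q : Fin 5 → Fin 5 → Fin 5 → K 4, (∀ i j l, p i j l ∈ SI {i, j, l}) ∧
      (∀ i j l, q i j l ∈ SI {i, j, l}) ∧ (∀ i j l, f i j l = x * p i j l + w * q i j l) ∧
      (∀ i j l r, p j l r - p i l r + p i j r - p i j l = 0) ∧
      (∀ i j l r, q j l r - q i l r + q i j r - q i j l = 0) := by
  choose p hp q hq e using hf
  choose t ht e1 e2 using fun i j l r => koszul1 (d2_mem hp i j l r) (d2_mem hq i j l r)
    (by linear_combination hd i j l r - e j l r + e i l r - e i j r + e i j l)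
  obtain ⟨b, hb, eb⟩ := H3S t ht (fun i j l r s => by
    apply mul_left_cancel₀ (ιX_ne 3)
    linear_combination -e1 j l r s + e1 i l r s - e1 i j r s + e1 i j l s - e1 i j l r)
  refine ⟨fun i j l => p i j l - w * b i j l, fun i j l => q i j l + x * b i j l,
    fun i j l => sub_mem (hp i j l) (mul_mem (ι_mem _ _) (hb i j l)),
    fun i j l => add_mem (hq i j l) (mul_mem (ι_mem _ _) (hb i j l)),
    fun i j l => by rw [e]; ring, fun i j l r => ?_, fun i j l r => ?_⟩
  · linear_combination e1 i j l r - w * eb i j l r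
  · linear_combination e2 i j l r + x * eb i j l r

lemma H1R (r : Fin 5 → Fin 5 → K 4) (hr : ∀ i j, r i j ∈ SI {i, j})
    (hd : ∀ i j l, XW {i, j, l} (r j l - r i l + r i j)) :
    ∃ s : Fin 5 → K 4, (∀ i, s i ∈ SI {i}) ∧ ∀ i j, XW {i, j} (r i j - (s j - s i)) := by
  obtain ⟨p, q, hp, hq, e, dp, dq⟩ := koszul2 _ hd (fun i j l m => by ring)
  obtain ⟨p', hp', ep⟩ := H2S p hp dp
  obtain ⟨q', hq', eq⟩ := H2S q hq dq
  obtain ⟨s, hs, es⟩ := H1S (fun i j => r i j - x * p' i j - w * q' i j)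
    (fun i j => sub_mem (sub_mem (hr i j) (mul_mem (ι_mem _ _) (hp' i j)))
      (mul_mem (ι_mem _ _) (hq' i j)))
    (fun i j l => by linear_combination e i j l - x * ep i j l - w * eq i j l)
  exact ⟨s, hs, fun i j => ⟨_, hp' i j, _, hq' i j, by rw [es]; ring⟩⟩

variable {a : Fin 9 → Fin 3 → ℂ}

lemma DI.mono {I J : Finset (Fin 5)} (h : I ⊆ J) {v : Fin 3 → K 4} (hv : DI a I v) : DI a J v :=
  ⟨fun i => SI_mono h (hv.1 i), fun j => by
    obtain ⟨t, ht, e⟩ := hv.2 j
    exact ⟨t, SI_mono h ht, e⟩⟩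

lemma DI.add {I : Finset (Fin 5)} {v v' : Fin 3 → K 4} (hv : DI a I v) (hv' : DI a I v') :
    DI a I (v + v') :=
  ⟨fun i => add_mem (hv.1 i) (hv'.1 i), fun j => by
    obtain ⟨t, ht, e⟩ := hv.2 j
    obtain ⟨t', ht', e'⟩ := hv'.2 j
    refine ⟨t + t', add_mem ht ht', ?_⟩
    simp only [Pi.add_apply]
    linear_combination e + e'⟩

lemma DI.smul {I : Finset (Fin 5)} {v : Fin 3 → K 4} (hv : DI a I v) {s : K 4} (hs : s ∈ SI I) :
    DI a I (s • v) :=
  ⟨fun i => mul_mem hs (hv.1 i), fun j => by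
    obtain ⟨t, ht, e⟩ := hv.2 j
    refine ⟨s * t, mul_mem hs ht, ?_⟩
    simp only [Pi.smul_apply, smul_eq_mul]
    linear_combination s * e⟩

lemma DI.neg {I : Finset (Fin 5)} {v : Fin 3 → K 4} (hv : DI a I v) : DI a I (-v) := by
  simpa using hv.smul (neg_mem (one_mem (SI I)))

lemma DI.sub {I : Finset (Fin 5)} {v v' : Fin 3 → K 4} (hv : DI a I v) (hv' : DI a I v') :
    DI a I (v - v') := by
  rw [sub_eq_add_neg]; exact hv.add hv'.neg

lemma DI_zero (I : Finset (Fin 5)) : DI a I 0 :=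
  ⟨fun _ => zero_mem _, fun _ => ⟨0, zero_mem _, by simp⟩⟩

lemma eta3 (v : Fin 3 → K 4) : ![v 0, v 1, v 2] = v := by
  funext i; fin_cases i <;> rfl

lemma xw_ne : x + w ≠ 0 := by
  rw [← map_add]
  apply ι_ne
  intro h
  have := congrArg (eval fun _ => (1 : ℂ)) h
  norm_num at this

lemma DA.xw {I : Finset (Fin 5)} {v : Fin 5 → K 4} (h : DA a I v) : XW I (v 0) := by
  obtain ⟨-, ⟨h1, hh1, e1⟩, ⟨h2, hh2, e2⟩, -⟩ := h
  exact ⟨h2, hh2, h2 - h1, sub_mem hh2 hh1, by linear_combination e2 - e1⟩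

theorem vanish (ha : ∀ j, al (a j) ≠ 0) {g : S 4} (hg : φ g ≠ 0)
    (G1 : ∀ I v, DI a I v → ∃ r ∈ SI I, XW I (v 0 - ι g * r))
    (θ : Fin 3 → K 4) (hθ : DI a ∅ θ) (hθ0 : XW ∅ (θ 0 - ι g)) : H2P (DA a) := by
  intro c hc hd
  have hd' : ∀ i j l r s, c j l r s - c i l r s + c i j r s - c i j l s = 0 :=
    fun i j l r s => congrFun (hd i j l r) s
  choose h4 hh4 e4 using fun i j l => (hc i j l).2.2.2
  choose h1 hh1 e1 using fun i j l => (hc i j l).2.1
  choose h2 hh2 e2 using fun i j l => (hc i j l).2.2.1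
  obtain ⟨bu, hbu, ebu⟩ := H2S h4 hh4 (fun i j l r => by
    apply mul_left_cancel₀ (ιX_ne 4)
    linear_combination hd' i j l r 4 - e4 j l r + e4 i l r - e4 i j r + e4 i j l)
  obtain ⟨b', hb', eb'⟩ := H2D a ha (fun i j l => ![c i j l 0, c i j l 1, c i j l 2])
    (fun i j l => (hc i j l).1) (fun i j l r => by
      funext s; fin_cases s
      · exact hd' i j l r 0
      · exact hd' i j l r 1
      · exact hd' i j l r 2)
  have eb0 : ∀ i j l, b' j l 0 - b' i l 0 + b' i j 0 = c i j l 0 := fun i j l =>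
    congrFun (eb' i j l) 0
  have eb1 : ∀ i j l, b' j l 1 - b' i l 1 + b' i j 1 = c i j l 1 := fun i j l =>
    congrFun (eb' i j l) 1
  have eb2 : ∀ i j l, b' j l 2 - b' i l 2 + b' i j 2 = c i j l 2 := fun i j l =>
    congrFun (eb' i j l) 2
  choose r hr er using fun i j => G1 _ _ (hb' i j)
  obtain ⟨s, hs, es⟩ := H1R r hr (fun i j l => XW_cancel hg (d1_mem hr i j l)
    (((((hc i j l).xw.sub ((er j l).mono (s0 i j l))).add ((er i l).mono (s1 i j l))).sub
      ((er i j).mono (s2 i j l))).congr (by linear_combination eb0 i j l)))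
  have hb'' : ∀ i j, DI a {i, j} (b' i j - (s j - s i) • θ) := fun i j =>
    (hb' i j).sub ((hθ.mono (Finset.empty_subset _)).smul (d0_mem hs i j))
  have hx : ∀ i j, XW {i, j} (b' i j 0 - (s j - s i) * θ 0) := fun i j =>
    (((er i j).add ((es i j).mul (ι_mem _ g))).sub
      ((hθ0.mono (Finset.empty_subset _)).mul (d0_mem hs i j))).congr (by ring)
  choose p hp q hq e using hx
  have hH : ∀ i j l, ∃ t ∈ SI {i, j, l}, h2 i j l - (p j l - p i l + p i j) = w * t := by
    intro i j l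
    obtain ⟨t, ht, e5, -⟩ := koszul1 (sub_mem (hh2 i j l) (d1_mem hp i j l))
      (sub_mem (sub_mem (hh2 i j l) (hh1 i j l)) (d1_mem hq i j l))
      (by linear_combination -e2 i j l + e1 i j l - eb0 i j l + e j l - e i l + e i j)
    exact ⟨t, ht, e5⟩
  choose t ht et using hH
  obtain ⟨t', ht', et'⟩ := H2S t ht (fun i j l r => by
    apply mul_left_cancel₀ (mul_ne_zero xw_ne (ιX_ne 3))
    linear_combination hd' i j l r 0 + hd' i j l r 3 - e2 j l r + e2 i l r - e2 i j r + e2 i j l -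
      (x + w) * (et j l r - et i l r + et i j r - et i j l))
  refine ⟨fun i j => ![b' i j 0 - (s j - s i) * θ 0, b' i j 1 - (s j - s i) * θ 1,
    b' i j 2 - (s j - s i) * θ 2, w * (p i j - q i j) + (x + w) * w * t' i j, u * bu i j],
    fun i j => ⟨?_, ⟨p i j - q i j + (x + w) * t' i j, add_mem (sub_mem (hp i j) (hq i j))
      (mul_mem (add_mem (ι_mem _ _) (ι_mem _ _)) (ht' i j)), ?_⟩,
      ⟨p i j + w * t' i j, add_mem (hp i j) (mul_mem (ι_mem _ _) (ht' i j)), ?_⟩,
      ⟨bu i j, hbu i j, rfl⟩⟩, fun i j l => ?_⟩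
  · have := hb'' i j
    rw [← eta3 (b' i j - (s j - s i) • θ)] at this
    exact this
  · simp only [Matrix.cons_val]; ring
  · simp only [Matrix.cons_val]; linear_combination e i j
  · funext m
    fin_cases m
    · simp only [Pi.add_apply, Pi.sub_apply, Fin.zero_eta, Matrix.cons_val]
      linear_combination eb0 i j l
    · simp only [Pi.add_apply, Pi.sub_apply, Fin.mk_one, Matrix.cons_val]
      linear_combination eb1 i j l
    · simp only [Pi.add_apply, Pi.sub_apply, Fin.reduceFinMk, Matrix.cons_val]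
      linear_combination eb2 i j l
    · simp only [Pi.add_apply, Pi.sub_apply, Fin.reduceFinMk, Matrix.cons_val]
      linear_combination -e2 i j l - eb0 i j l + e j l - e i l + e i j - (x + w) * et i j l +
        (x + w) * w * et' i j l
    · simp only [Pi.add_apply, Pi.sub_apply, Fin.reduceFinMk, Matrix.cons_val]
      linear_combination u * ebu i j l - e4 i j l

theorem nonvanish {g : S 4} (θy θz : Fin 3 → K 4) (hy : DI a ∅ θy) (hz : DI a ∅ θz)
    (hy0 : XW ∅ (θy 0 - ι g * y)) (hz0 : XW ∅ (θz 0 - ι g * z))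
    (NO : ∀ (θ : Fin 3 → S 4) (h : Fin 9 → S 4) (k : ℕ) (P : S 4),
      (∀ j, C (a j 0) * θ 0 + C (a j 1) * θ 1 + C (a j 2) * θ 2 = al (a j) * h j) →
      φ (θ 0) ≠ φ g * X 4 ^ k + P * X 4 ^ (k + 1)) : ¬ H2P (DA a) := by
  intro H
  let s : Fin 5 → K 4 := fun i => if i = 4 then ι g * u⁻¹ else 0
  let t : Fin 5 → Fin 3 → K 4 := fun i =>
    if i = 1 then (y⁻¹ * u⁻¹) • θy else if i = 2 then (z⁻¹ * u⁻¹) • θz else 0
  have ht : ∀ (I : Finset (Fin 5)) i, i ∈ I → 4 ∈ I → i ≠ 4 →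
      DI a I (t i) ∧ XW I (t i 0 - ι g * u⁻¹) := by
    intro I i hi h4 hi4
    have hy1 := ιX_ne 1
    have hz1 := ιX_ne 2
    by_cases h1 : i = 1
    · subst h1
      have hm := mul_mem (inv_mem hi) (inv_mem h4)
      refine ⟨(hy.mono (Finset.empty_subset _)).smul hm,
        ((hy0.mono (Finset.empty_subset _)).mul hm).congr ?_⟩
      simp only [t, if_true, Pi.smul_apply, smul_eq_mul]
      field_simp
    by_cases h2 : i = 2
    · subst h2
      have hm := mul_mem (inv_mem hi) (inv_mem h4)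
      refine ⟨(hz.mono (Finset.empty_subset _)).smul hm,
        ((hz0.mono (Finset.empty_subset _)).mul hm).congr ?_⟩
      simp only [t, if_neg h1, if_true, Pi.smul_apply, smul_eq_mul]
      field_simp
    simp only [t, if_neg h1, if_neg h2]
    refine ⟨DI_zero _, XW_triv ?_ (sub_mem (zero_mem _) (mul_mem (ι_mem _ _) (inv_mem h4)))⟩
    fin_cases i
    · exact Or.inl hi
    · exact absurd rfl h1
    · exact absurd rfl h2
    · exact Or.inr hi
    · exact absurd rfl hi4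
  let δ : Fin 5 → Fin 5 → Fin 3 → K 4 := fun i j =>
    if i = 4 then (if j = 4 then 0 else -t j) else (if j = 4 then t i else 0)
  have hδ : ∀ i j, DI a {i, j} (δ i j) ∧ XW {i, j} (δ i j 0 - (s j - s i)) := by
    intro i j
    by_cases hi : i = 4 <;> by_cases hj : j = 4
    · simp only [δ, s, if_pos hi, if_pos hj]
      exact ⟨DI_zero _, (XW_zero _).congr (by simp)⟩
    · simp only [δ, s, if_pos hi, if_neg hj]
      have := ht {i, j} j (by simp) (by simp [hi]) hj
      exact ⟨this.1.neg, this.2.neg.congr (by simp; ring)⟩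
    · simp only [δ, s, if_neg hi, if_pos hj]
      have := ht {i, j} i (by simp) (by simp [hj]) hi
      exact ⟨this.1, this.2.congr (by simp)⟩
    · simp only [δ, s, if_neg hi, if_neg hj]
      exact ⟨DI_zero _, (XW_zero _).congr (by simp)⟩
  obtain ⟨p, q, hp, hq, e, dp, dq⟩ := koszul2 (fun i j l => δ j l 0 - δ i l 0 + δ i j 0)
    (fun i j l => ((((hδ j l).2.mono (s0 i j l)).sub ((hδ i l).2.mono (s1 i j l))).add
      ((hδ i j).2.mono (s2 i j l))).congr (by ring)) (fun i j l m => by ring)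
  obtain ⟨B, hB, eB⟩ := H (fun i j l => ![δ j l 0 - δ i l 0 + δ i j 0, δ j l 1 - δ i l 1 + δ i j 1,
    δ j l 2 - δ i l 2 + δ i j 2, w * (p i j l - q i j l), 0])
    (fun i j l => ⟨by
        have := (((hδ j l).1.mono (s0 i j l)).sub ((hδ i l).1.mono (s1 i j l))).add
          ((hδ i j).1.mono (s2 i j l))
        rw [← eta3 (δ j l - δ i l + δ i j)] at this
        exact this,
      ⟨_, sub_mem (hp i j l) (hq i j l), rfl⟩,
      ⟨p i j l, hp i j l, by simp only [Matrix.cons_val]; linear_combination e i j l⟩,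
      ⟨0, zero_mem _, by simp⟩⟩)
    (fun i j l r => by
      funext m
      fin_cases m
      · simp only [Pi.add_apply, Pi.sub_apply, Fin.zero_eta, Matrix.cons_val, Pi.zero_apply]; ring
      · simp only [Pi.add_apply, Pi.sub_apply, Fin.mk_one, Matrix.cons_val, Pi.zero_apply]; ring
      · simp only [Pi.add_apply, Pi.sub_apply, Fin.reduceFinMk, Matrix.cons_val, Pi.zero_apply]
        ring
      · simp only [Pi.add_apply, Pi.sub_apply, Fin.reduceFinMk, Matrix.cons_val, Pi.zero_apply]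
        linear_combination w * dp i j l r - w * dq i j l r
      · simp only [Pi.add_apply, Pi.sub_apply, Fin.reduceFinMk, Matrix.cons_val, Pi.zero_apply]
        ring)
  obtain ⟨β, hβ, eβ⟩ := H1D a (fun i j => δ i j - ![B i j 0, B i j 1, B i j 2])
    (fun i j => (hδ i j).1.sub (hB i j).1) (fun i j l => by
      funext m
      have h0 := congrFun (eB i j l) 0
      have h1 := congrFun (eB i j l) 1
      have h2 := congrFun (eB i j l) 2
      simp only [Pi.add_apply, Pi.sub_apply, Matrix.cons_val] at h0 h1 h2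
      fin_cases m
      · simp only [Pi.add_apply, Pi.sub_apply, Fin.zero_eta, Matrix.cons_val, Pi.zero_apply]
        linear_combination -h0
      · simp only [Pi.add_apply, Pi.sub_apply, Fin.mk_one, Matrix.cons_val, Pi.zero_apply]
        linear_combination -h1
      · simp only [Pi.add_apply, Pi.sub_apply, Fin.reduceFinMk, Matrix.cons_val, Pi.zero_apply]
        linear_combination -h2)
  have key : ∀ i j, XW {i, j} ((s j - s i) - (β j 0 - β i 0)) := fun i j =>
    ((hB i j).xw.sub (hδ i j).2).congr (by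
      have := congrFun (eβ i j) 0
      simp only [Pi.sub_apply, Matrix.cons_val] at this
      linear_combination -this)
  obtain ⟨m, -, b, hb⟩ := common (fun i : Fin 5 => {i}) (fun i => β i 0) fun i => (hβ i).1 0
  choose h hh eh using (hβ 4).2
  obtain ⟨k, hk, θ, hθ⟩ := common (fun _ : Fin 3 ⊕ Fin 9 => {4}) (Sum.elim (β 4) h) (by
    rintro (i | i)
    · exact (hβ 4).1 i
    · exact hh i)
  obtain ⟨k, rfl⟩ : ∃ k', k = k' + 1 := ⟨k - 1, by omega⟩
  simp only [xI, Finset.prod_singleton] at hb hθ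
  have k1 : φ (b 1 * X 2 ^ m - b 2 * X 1 ^ m) = 0 :=
    XW_φ (by decide) (by decide) (key 1 2) (e := X 1 ^ m * X 2 ^ m) (by
      simp only [map_sub, map_mul, hb, s]
      simp only [show (2 : Fin 5) ≠ 4 by decide, show (1 : Fin 5) ≠ 4 by decide, if_false]
      ring)
  have k2 : φ (g * X 4 ^ k * X 1 ^ m - θ (.inl 0) * X 1 ^ m + b 1 * X 4 ^ (k + 1)) = 0 :=
    XW_φ (by decide) (by decide) (key 1 4) (e := X 1 ^ m * X 4 ^ (k + 1)) (by
      simp only [map_sub, map_add, map_mul, hb, hθ, s, Sum.elim_inl]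
      simp only [show (1 : Fin 5) ≠ 4 by decide, if_false, if_true, map_pow]
      have := ιX_ne 4
      field_simp
      ring)
  simp only [map_sub, map_add, map_mul, map_pow, φX (i := 1) (by decide) (by decide),
    φX (i := 2) (by decide) (by decide), φX (i := 4) (by decide) (by decide)] at k1 k2
  have k3 : (X 1 : S 4) ^ m ∣ φ (b 1) := by
    refine (X_prime (i := (1 : Fin 5)) (R := ℂ)).pow_dvd_of_dvd_mul_right m (a := φ (b 1))
      (b := X 2 ^ m) (fun h => ?_) ⟨φ (b 2), by linear_combination k1⟩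
    have := (X_prime (i := (1 : Fin 5)) (R := ℂ)).dvd_of_dvd_pow h
    rw [X_dvd_X] at this
    exact absurd this (by decide)
  obtain ⟨P, hP⟩ := k3
  refine NO (fun i => θ (.inl i)) (fun j => θ (.inr j)) k P (fun j => ?_) ?_
  · apply ι_inj
    simp only [map_add, map_mul, hθ, Sum.elim_inl, Sum.elim_inr]
    linear_combination ι (X 4 ^ (k + 1)) * eh j
  · apply mul_left_cancel₀ (pow_ne_zero m (X_ne_zero (R := ℂ) (1 : Fin 5)))
    rw [hP] at k2
    linear_combination -k2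

end

end Pool.Agent.H311Z.SF
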